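import Mathlib

set_option autoImplicit false

namespace Pool.Agent.MP49888f.HX

/-- `K ≤ 1` -/
theorem core0 {x y T m : ℝ} (hT : 4 / 3 ≤ T) (hTS : T ≤ x + y) (hx : x ≤ 1) (hy : y ≤ 1)
    (h1 : y * (1 + x) ≤ m) (h2 : x * (1 + y) ≤ m) : 5 * T ≤ 6 * m := by
  rcases le_total x y with h | h
  · nlinarith [mul_nonneg (sub_nonneg.mpr hx) (sub_nonneg.mpr hy), mul_nonneg (sub_nonneg.mpr h) (sub_nonneg.mpr hy)]
  · nlinarith [mul_nonneg (sub_nonneg.mpr hx) (sub_nonneg.mpr hy), mul_nonneg (sub_nonneg.mpr h) (sub_nonneg.mpr hx)]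

theorem coreB {K k s m : ℝ} (hk : 0 < k) (hK : 1 ≤ K) (hL : k ≤ K) (hs0 : 0 ≤ s) (hs1 : s ≤ 1)
    (hg : K - k * s ≤ 1) (hg0 : 0 ≤ K - k * s) (h1 : (K - k * s) * (1 + s) ≤ m)
    (h2 : (1 + K) ^ 2 ≤ 4 * k * m) : 5 * (2 * K - k - (K - 1) * s) ≤ 6 * m := by
  rcases le_or_gt (1 / 3) s with h | h
  · have hE : 0 ≤ 20 * (1 + s) * (1 - 2 * s + 2 * s ^ 2) * k ^ 2 - 20 * s * (1 + s) * k * (1 + K)
        + 4 * (4 * s - 1) * (1 + K) ^ 2 := by
      have e : 16 * (4 * s - 1) * (20 * (1 + s) * (1 - 2 * s + 2 * s ^ 2) * k ^ 2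
          - 20 * s * (1 + s) * k * (1 + K) + 4 * (4 * s - 1) * (1 + K) ^ 2) =
          (8 * (4 * s - 1) * (1 + K) - 20 * s * (1 + s) * k) ^ 2 +
          80 * (1 + s) * (3 * s - 2) ^ 2 * (3 * s - 1) * k ^ 2 := by ring
      have h3 : 0 ≤ 80 * (1 + s) * (3 * s - 2) ^ 2 * (3 * s - 1) * k ^ 2 := by
        have : 0 ≤ 3 * s - 1 := by linarith
        positivity
      by_contra hcon
      push Not at hcon
      have h4 : 16 * (4 * s - 1) * (20 * (1 + s) * (1 - 2 * s + 2 * s ^ 2) * k ^ 2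
          - 20 * s * (1 + s) * k * (1 + K) + 4 * (4 * s - 1) * (1 + K) ^ 2) < 0 :=
        mul_neg_of_pos_of_neg (by linarith) hcon
      rw [e] at h4
      have := sq_nonneg (8 * (4 * s - 1) * (1 + K) - 20 * s * (1 + s) * k)
      linarith
    have h5 : 0 ≤ (1 - s) * k * (m - (K - k * s) * (1 + s)) :=
      mul_nonneg (mul_nonneg (by linarith) hk.le) (by linarith)
    have h6 : 0 ≤ (16 * s - 4) * (4 * k * m - (1 + K) ^ 2) :=
      mul_nonneg (by linarith) (by linarith)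
    by_contra hcon
    push Not at hcon
    have h7 : 0 < 4 * k * (1 + s) * (5 * (2 * K - k - (K - 1) * s) - 6 * m) :=
      mul_pos (by positivity) (by linarith)
    nlinarith
  · rcases le_or_gt (4 - 6 * s) (5 * k * (1 - s) ^ 2) with h3 | h3
    · nlinarith [mul_nonneg (show (0 : ℝ) ≤ 4 - 11 * s by linarith) (show (0 : ℝ) ≤ 1 - (K - k * s) by linarith)]
    · obtain ⟨g, hgd⟩ : ∃ g : ℝ, g = K - k * s := ⟨_, rfl⟩
      have hKg : K = g + k * s := by linarith
      subst hKg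
      have e1 : g + k * s - k * s = g := by ring
      rw [e1] at hg hg0 h1
      have hk9 : k < 9 / 10 := by nlinarith [sq_nonneg (1 - s)]
      have hQ : 0 ≤ 3 * (1 + g + k * s) ^ 2 - 10 * k * (g * (2 - s) + s - k * (1 - s) ^ 2) := by
        have hg1 : 0 ≤ 1 - g := by linarith
        have hk1 : 0 ≤ 9 / 10 - k := by linarith
        have hs3 : 0 ≤ 1 / 3 - s := by linarith
        nlinarith [mul_nonneg hg1 hk.le, mul_nonneg hk1 hk.le, mul_nonneg hs3 hs0, mul_nonneg hg1 hk1,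
          mul_nonneg (mul_nonneg hg1 hk.le) hs0, mul_nonneg (mul_nonneg hk.le hk.le) hs0,
          mul_nonneg (mul_nonneg hk1 hk.le) hs0, sq_nonneg (1 + g - 5 / 3 * k), sq_nonneg (1 - k),
          mul_nonneg hk.le (sq_nonneg (1 - s))]
      have h7 : 0 ≤ 4 * k * m - (1 + (g + k * s)) ^ 2 := by linarith
      by_contra hcon
      push Not at hcon
      have h8 : 0 < 4 * k * (5 * (2 * (g + k * s) - k - (g + k * s - 1) * s) - 6 * m) :=
        mul_pos (by positivity) (by linarith)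
      nlinarith

theorem coreIII {K k s x y m : ℝ} (hk : 0 < k) (hK : 1 ≤ K) (hy : y = K - k * x) (hs0 : 0 ≤ s)
    (hsx : s ≤ x) (hx1 : x ≤ 1) (hy0 : 0 ≤ y) (hy1 : y ≤ 1)
    (hg : K - k * s ≤ 1) (h3 : k * (1 + x) ≤ y) (h1 : y * (1 + x) ≤ m) (h2 : x * (1 + y) ≤ m) :
    5 * (K * (x - s) + s + y) ≤ 6 * m := by
  have hx0 : 0 ≤ x := hs0.trans hsx
  have hKe : K = y + k * x := by linarith
  have b1 : K * (x - s) + s + y ≤ K * x + y := by nlinarith
  have b2 : (1 + x) * (K * x + y) ≤ y * (1 + 2 * x + 2 * x ^ 2) := by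
    rw [hKe]
    nlinarith [mul_nonneg hx0 hx0, mul_le_mul_of_nonneg_left h3 (mul_nonneg hx0 hx0)]
  rcases le_or_gt x (4 / 5) with hx | hx
  · have b3 : 0 ≤ y * (1 + 2 * x - 4 * x ^ 2) := mul_nonneg hy0 (by nlinarith)
    have b4 : 0 ≤ (1 + x) * (m - y * (1 + x)) := mul_nonneg (by linarith) (by linarith)
    by_contra hcon
    push Not at hcon
    have h7 : 0 < (1 + x) * (5 * (K * x + y) - 6 * m) := mul_pos (by linarith) (by linarith)
    nlinarith
  · rcases le_or_gt (5 * y * (1 + 0.8 * x + 0.8 * x ^ 2)) (6 * x * (1 + x)) with hc | hc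
    · have b4 : 0 ≤ (1 + x) * (m - x * (1 + y)) := mul_nonneg (by linarith) (by linarith)
      by_contra hcon
      push Not at hcon
      have h7 : 0 < (1 + x) * (5 * (K * x + y) - 6 * m) := mul_pos (by linarith) (by linarith)
      linarith
    · have b5 : K * (x - s) + s + y ≤ x + y + k * x ^ 2 / 4 := by
        by_contra hcon
        push Not at hcon
        have h7 : 0 < k * (K * (x - s) + s + y - (x + y + k * x ^ 2 / 4)) :=
          mul_pos hk (by linarith)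
        have h8 : 0 ≤ (K - 1) * (k * s - (K - 1)) := mul_nonneg (by linarith) (by linarith)
        nlinarith [sq_nonneg (k * x / 2 - (K - 1))]
      have b6 : (1 + x) * (x + y + k * x ^ 2 / 4) ≤ (1 + x) * (x + y) + x ^ 2 * y / 4 := by
        nlinarith [mul_le_mul_of_nonneg_left h3 (mul_nonneg hx0 hx0)]
      have b4 : 0 ≤ (1 + x) * (m - y * (1 + x)) := mul_nonneg (by linarith) (by linarith)
      by_contra hcon
      push Not at hcon
      have h7 : 0 < (1 + x) * (5 * (x + y + k * x ^ 2 / 4) - 6 * m) :=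
        mul_pos (by linarith) (by linarith)
      have h9 : y * (0.2 + 1.4 * x + 0.95 * x ^ 2) < x * (1 + x) := by nlinarith
      nlinarith

end Pool.Agent.MP49888f.HX
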