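import Pool.Agent.Lib.MP_49888f_co.HX.Defs
import Pool.Agent.Lib.MP_49888f_co.CV.Slice

/-! MP_49888f_co, board HX, module Area: area bound by four trapezoids. -/

set_option autoImplicit false

namespace Pool.Agent.MP49888f.HX

open MeasureTheory Set Pool.Agent.MP49888f.CV

private theorem Area_slice (S : Set (ℝ × ℝ)) (hc : Convex ℝ S) (hk : IsCompact S) (y M : ℝ)
    (h : ∀ l, y ∈ Yset S l → l ≤ M) :
    volume ((fun x : ℝ => (x, y)) ⁻¹' S) ≤ ENNReal.ofReal M := by
  set X : Set ℝ := (fun x : ℝ => (x, y)) ⁻¹' S with hX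
  have hXc : IsCompact X := by
    have h1 : X = Prod.fst '' (S ∩ {p : ℝ × ℝ | p.2 = y}) := by
      ext x
      constructor
      · intro hx
        exact ⟨(x, y), ⟨hx, rfl⟩, rfl⟩
      · rintro ⟨⟨x', y'⟩, ⟨h1, h2⟩, rfl⟩
        have h2' : y' = y := h2
        subst h2'
        exact h1
    rw [h1]
    exact (hk.inter_right (isClosed_eq continuous_snd continuous_const)).image continuous_fst
  have hXv : Convex ℝ X := by
    intro x1 h1 x2 h2 s t hs ht hst
    have h3 := hc h1 h2 hs ht hst
    have h4 : s • ((x1, y) : ℝ × ℝ) + t • ((x2, y) : ℝ × ℝ) = (s • x1 + t • x2, y) := by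
      ext
      · simp
      · simp only [Prod.snd_add, Prod.smul_snd, smul_eq_mul]
        rw [← add_mul, hst, one_mul]
    rw [h4] at h3
    exact h3
  rcases X.eq_empty_or_nonempty with hE | hE
  · rw [hE, measure_empty]
    simp
  · obtain ⟨hXI⟩ : Nonempty (X = Icc (sInf X) (sSup X)) := ⟨compact_convex_eq_Icc X hXc hXv hE⟩
    generalize sInf X = a at hXI
    generalize sSup X = b at hXI
    have hab : a ≤ b := by
      rw [hXI] at hE
      exact nonempty_Icc.1 hE
    rw [hXI, Real.volume_Icc]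
    refine ENNReal.ofReal_le_ofReal (h _ ⟨a, ?_, ?_⟩)
    · show a ∈ X
      rw [hXI]
      exact ⟨le_rfl, hab⟩
    · show a + (b - a) ∈ X
      rw [hXI]
      exact ⟨by linarith, by linarith⟩

private theorem Area_trap (g : ℝ → ENNReal) {a b ca cb : ℝ} (hab : a ≤ b) (hca : 0 ≤ ca) (hcb : 0 ≤ cb)
    (h : ∀ y, a < y → y < b → g y ≤ ENNReal.ofReal (((b - y) * ca + (y - a) * cb) / (b - a))) :
    ∫⁻ y in Ioo a b, g y ≤ ENNReal.ofReal ((b - a) * (ca + cb) / 2) := by
  rcases eq_or_lt_of_le hab with h0 | h0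
  · rw [h0, Ioo_self]
    simp
  have hb0 : (b - a) ≠ 0 := by linarith
  have hpos : 0 < b - a := by linarith
  calc ∫⁻ y in Ioo a b, g y
      ≤ ∫⁻ y in Ioo a b, ENNReal.ofReal (((b - y) * ca + (y - a) * cb) / (b - a)) :=
        setLIntegral_mono' measurableSet_Ioo fun y hy => h y hy.1 hy.2
    _ ≤ ∫⁻ y in Ioc a b, ENNReal.ofReal (((b - y) * ca + (y - a) * cb) / (b - a)) :=
        lintegral_mono_set Ioo_subset_Ioc_self
    _ = ENNReal.ofReal (∫ y in Ioc a b, ((b - y) * ca + (y - a) * cb) / (b - a)) := by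
        rw [ofReal_integral_eq_lintegral_ofReal]
        · have hcont : Continuous fun y : ℝ => ((b - y) * ca + (y - a) * cb) / (b - a) := by fun_prop
          exact (hcont.integrableOn_Icc (a := a) (b := b)).mono_set Ioc_subset_Icc_self
        · refine (ae_restrict_iff' measurableSet_Ioc).2 (Filter.Eventually.of_forall fun y hy => ?_)
          exact div_nonneg (add_nonneg (mul_nonneg (by linarith [hy.2]) hca)
            (mul_nonneg (by linarith [hy.1]) hcb)) hpos.le
    _ = ENNReal.ofReal ((b - a) * (ca + cb) / 2) := by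
        congr 1
        rw [← intervalIntegral.integral_of_le hab]
        have hd : ∀ y ∈ uIcc a b, HasDerivAt
            (fun y : ℝ => (cb * (y - a) ^ 2 - ca * (b - y) ^ 2) / (2 * (b - a)))
            (((b - y) * ca + (y - a) * cb) / (b - a)) y := by
          intro y _
          have h1 : HasDerivAt (fun y : ℝ => (y - a) ^ 2) (2 * (y - a)) y := by
            have h1' := ((hasDerivAt_id y).sub_const a).fun_pow 2
            simpa using h1'
          have h2 : HasDerivAt (fun y : ℝ => (b - y) ^ 2) (-(2 * (b - y))) y := by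
            have h2' := ((hasDerivAt_id y).const_sub b).fun_pow 2
            simpa using h2'
          have h3 := ((h1.const_mul cb).fun_sub (h2.const_mul ca)).div_const (2 * (b - a))
          refine h3.congr_deriv ?_
          rw [div_eq_div_iff (by linarith) hb0]
          ring
        have hcont : Continuous fun y : ℝ => ((b - y) * ca + (y - a) * cb) / (b - a) := by fun_prop
        rw [intervalIntegral.integral_eq_sub_of_hasDerivAt hd (hcont.intervalIntegrable a b)]
        field_simp
        ring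

theorem area_nodes (S : Set (ℝ × ℝ)) (hc : Convex ℝ S) (hk : IsCompact S)
    (m0 y1 y2 y3 m1 c1 c2 c3 : ℝ) (h01 : m0 ≤ y1) (h12 : y1 ≤ y2) (h23 : y2 ≤ y3) (h34 : y3 ≤ m1)
    (hc1 : 0 ≤ c1) (hc2 : 0 ≤ c2) (hc3 : 0 ≤ c3) (hS : ∀ p ∈ S, m0 ≤ p.2 ∧ p.2 ≤ m1)
    (b1 : ∀ y l, m0 < y → y < y1 → y ∈ Yset S l → (y1 - m0) * l ≤ (y1 - y) * 0 + (y - m0) * c1)
    (b2 : ∀ y l, y1 < y → y < y2 → y ∈ Yset S l → (y2 - y1) * l ≤ (y2 - y) * c1 + (y - y1) * c2)
    (b3 : ∀ y l, y2 < y → y < y3 → y ∈ Yset S l → (y3 - y2) * l ≤ (y3 - y) * c2 + (y - y2) * c3)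
    (b4 : ∀ y l, y3 < y → y < m1 → y ∈ Yset S l → (m1 - y3) * l ≤ (m1 - y) * c3 + (y - y3) * 0) :
    2 * (volume S).toReal ≤ c1 * (y2 - m0) + c2 * (y3 - y1) + c3 * (m1 - y2) := by
  have hSm : MeasurableSet S := hk.isClosed.measurableSet
  set g : ℝ → ENNReal := fun y => volume ((fun x : ℝ => (x, y)) ⁻¹' S) with hg
  have hv : volume S = ∫⁻ y, g y := by
    rw [Measure.volume_eq_prod, Measure.prod_apply_symm hSm]
  have hout : ∀ y, y ∉ Icc m0 m1 → g y = 0 := by
    intro y hy
    have : (fun x : ℝ => (x, y)) ⁻¹' S = ∅ := by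
      ext x
      constructor
      · intro hx
        exact absurd (hS (x, y) hx) hy
      · intro hx
        exact absurd hx (Set.notMem_empty _)
    simp only [hg, this, measure_empty]
  have hgen : ∀ a b ca cb : ℝ, (∀ y l, a < y → y < b → y ∈ Yset S l →
      (b - a) * l ≤ (b - y) * ca + (y - a) * cb) → ∀ y, a < y → y < b →
      g y ≤ ENNReal.ofReal (((b - y) * ca + (y - a) * cb) / (b - a)) := by
    intro a b ca cb hb y hy1 hy2
    refine Area_slice S hc hk y _ fun l hl => ?_
    rw [le_div_iff₀ (by linarith), mul_comm]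
    exact hb y l hy1 hy2 hl
  have t1 := Area_trap g h01 le_rfl hc1 (hgen _ _ _ _ b1)
  have t2 := Area_trap g h12 hc1 hc2 (hgen _ _ _ _ b2)
  have t3 := Area_trap g h23 hc2 hc3 (hgen _ _ _ _ b3)
  have t4 := Area_trap g h34 hc3 le_rfl (hgen _ _ _ _ b4)
  have hcov : Icc m0 m1 ⊆ Ioo m0 y1 ∪ (Ioo y1 y2 ∪ (Ioo y2 y3 ∪ (Ioo y3 m1 ∪
      ({m0, y1, y2, y3, m1} : Set ℝ)))) := by
    intro y hy
    simp only [mem_union, mem_Ioo, mem_insert_iff, mem_singleton_iff]
    rcases lt_trichotomy y y1 with h | h | h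
    · rcases eq_or_lt_of_le hy.1 with h' | h'
      · right; right; right; right; left; exact h'.symm
      · left; exact ⟨h', h⟩
    · right; right; right; right; right; left; exact h
    · rcases lt_trichotomy y y2 with k | k | k
      · right; left; exact ⟨h, k⟩
      · right; right; right; right; right; right; left; exact k
      · rcases lt_trichotomy y y3 with j | j | j
        · right; right; left; exact ⟨k, j⟩
        · right; right; right; right; right; right; right; left; exact j
        · rcases eq_or_lt_of_le hy.2 with i | i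
          · right; right; right; right; right; right; right; right; exact i
          · right; right; right; left; exact ⟨j, i⟩
  have hz : ∫⁻ y in ({m0, y1, y2, y3, m1} : Set ℝ), g y = 0 := by
    refine setLIntegral_measure_zero _ _ ?_
    exact (Set.toFinite _).measure_zero _
  have hle : volume S ≤ ENNReal.ofReal ((y1 - m0) * (0 + c1) / 2) + (ENNReal.ofReal ((y2 - y1) * (c1 + c2) / 2)
      + (ENNReal.ofReal ((y3 - y2) * (c2 + c3) / 2) + (ENNReal.ofReal ((m1 - y3) * (c3 + 0) / 2) + 0))) := by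
    calc volume S = ∫⁻ y, g y := hv
      _ = ∫⁻ y in Icc m0 m1, g y := by
          rw [← lintegral_indicator measurableSet_Icc]
          refine lintegral_congr fun y => ?_
          by_cases hy : y ∈ Icc m0 m1
          · rw [indicator_of_mem hy]
          · rw [indicator_of_notMem hy, hout y hy]
      _ ≤ ∫⁻ y in Ioo m0 y1 ∪ (Ioo y1 y2 ∪ (Ioo y2 y3 ∪ (Ioo y3 m1 ∪
            ({m0, y1, y2, y3, m1} : Set ℝ)))), g y := lintegral_mono_set hcov
      _ ≤ _ := by
          refine (lintegral_union_le _ _ _).trans (add_le_add t1 ?_)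
          refine (lintegral_union_le _ _ _).trans (add_le_add t2 ?_)
          refine (lintegral_union_le _ _ _).trans (add_le_add t3 ?_)
          refine (lintegral_union_le _ _ _).trans (add_le_add t4 hz.le)
  have n1 : 0 ≤ (y1 - m0) * (0 + c1) / 2 := by
    have := mul_nonneg (sub_nonneg.2 h01) hc1
    linarith
  have n2 : 0 ≤ (y2 - y1) * (c1 + c2) / 2 := by
    have := mul_nonneg (sub_nonneg.2 h12) (add_nonneg hc1 hc2)
    linarith
  have n3 : 0 ≤ (y3 - y2) * (c2 + c3) / 2 := by
    have := mul_nonneg (sub_nonneg.2 h23) (add_nonneg hc2 hc3)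
    linarith
  have n4 : 0 ≤ (m1 - y3) * (c3 + 0) / 2 := by
    have := mul_nonneg (sub_nonneg.2 h34) hc3
    linarith
  rw [add_zero, ← ENNReal.ofReal_add n3 n4, ← ENNReal.ofReal_add n2 (add_nonneg n3 n4),
    ← ENNReal.ofReal_add n1 (add_nonneg n2 (add_nonneg n3 n4))] at hle
  have h5 := ENNReal.toReal_le_of_le_ofReal (add_nonneg n1 (add_nonneg n2 (add_nonneg n3 n4))) hle
  nlinarith [h5]

end Pool.Agent.MP49888f.HX
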