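import Pool.Agent.Lib.MP_49888f_co.HX.Defs
import Pool.Agent.Lib.MP_49888f_co.PG.Pent

/-! MP_49888f_co, board HX, module Bounds: if `C` has no covering of density `≤ 6/5`, all hexagons are small. -/

set_option autoImplicit false

namespace Pool.Agent.MP49888f.HX

open MeasureTheory Set Pool.Agent.MP49888f.CV
open scoped Pointwise

private theorem Bounds_cr_fr (u w : E2) (huw : cr u w = 1) (p : ℝ × ℝ) :
    cr u (fr u w p) = p.2 := by
  unfold fr
  rw [cr_add_right, cr_smul_right, cr_smul_right, cr_self, huw]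
  ring

private theorem Bounds_len (S : Set (ℝ × ℝ)) (hc : Convex ℝ S) (hk : IsCompact S) (l a b : ℝ)
    (ha : a ∈ Yset S l) (hb : b ∈ Yset S l) : b - a ≤ (volume (Yset S l)).toReal := by
  have hsub : Icc a b ⊆ Yset S l := (Yset_convex S hc l).ordConnected.out ha hb
  have hle := measure_mono (μ := volume) hsub
  rw [Real.volume_Icc] at hle
  exact (ENNReal.ofReal_le_iff_le_toReal (Yset_isCompact S hk l).measure_lt_top.ne).mp hle

theorem bounds (C : Set E2) (hC : Convex ℝ C) (hk : IsCompact C) (hpos : 0 < volume C)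
    (u w : E2) (huw : cr u w = 1) (L m0 m1 : ℝ) (hL : 0 < L) (hm : m0 < m1)
    (hm0 : m0 ∈ Yset (fr u w ⁻¹' C) 0) (hm1 : m1 ∈ Yset (fr u w ⁻¹' C) 0)
    (hm01 : ∀ p ∈ fr u w ⁻¹' C, m0 ≤ p.2 ∧ p.2 ≤ m1)
    (hneL : (Yset (fr u w ⁻¹' C) L).Nonempty)
    (hmax : ∀ l, L < l → Yset (fr u w ⁻¹' C) l = ∅) (hno : ¬ CovLE C (6 / 5)) :
    2 * (L * (m1 - m0)) < 3 * (volume C).toReal ∧
    ∀ l g : ℝ, 0 ≤ l → l ≤ L → 0 ≤ g → Adm (fr u w ⁻¹' C) l g →
      3 * (l * ((m1 - m0) + g)) < 5 * (volume C).toReal ∧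
      3 * ((l + L) * g) < 5 * (volume C).toReal := by
  have hcS : Convex ℝ (fr u w ⁻¹' C) := convex_fr_preimage u w C hC
  have hkS : IsCompact (fr u w ⁻¹' C) := isCompact_fr_preimage u w huw C hk
  have hK : 0 < (volume C).toReal := ENNReal.toReal_pos hpos.ne' hk.measure_lt_top.ne
  have hW := Bounds_len _ hcS hkS 0 m0 m1 hm0 hm1
  have hWpos : 0 < (volume (Yset (fr u w ⁻¹' C) 0)).toReal := by linarith
  refine ⟨?_, ?_⟩
  · by_contra hcon
    push Not at hcon
    apply hno
    obtain ⟨y, x, h1, h2⟩ := hneL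
    obtain ⟨x0, h3, -⟩ := hm0
    obtain ⟨x1, h4, -⟩ := hm1
    have hz : L • u ∈ C - C := by
      refine Set.mem_sub.2 ⟨fr u w (x + L, y), h2, fr u w (x, y), h1, ?_⟩
      unfold fr
      simp only [add_smul]
      abel
    have hd : fr u w (x1, m1) - fr u w (x0, m0) ∈ C - C := Set.sub_mem_sub h4 h3
    refine PG.large C hC hk hpos (L • u) _ hz hd ?_
    rw [cr_smul_left, cr_sub_right, Bounds_cr_fr u w huw, Bounds_cr_fr u w huw]
    have e : L * (m1 - m0) ≤ |L * (m1 - m0)| := le_abs_self _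
    show 3 / 2 * (volume C).toReal ≤ |L * (m1 - m0)|
    linarith
  · intro l g hl hlL hg hadm
    obtain ⟨y, hy1, hy2⟩ := hadm
    have hwl : g ≤ (volume (Yset (fr u w ⁻¹' C) l)).toReal := by
      have := Bounds_len _ hcS hkS l y (y + g) hy1 hy2
      linarith
    refine ⟨?_, ?_⟩
    · by_contra hcon
      push Not at hcon
      have hl0 : 0 < l := by
        rcases hl.lt_or_eq with h | h
        · exact h
        · rw [← h] at hcon
          linarith
      apply hno
      refine (hexPhi C hC hk u w huw l hl0 ⟨y, hy1⟩ hWpos).mono ?_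
      have h5 : l * ((m1 - m0) + g) ≤ l * ((volume (Yset (fr u w ⁻¹' C) 0)).toReal +
          (volume (Yset (fr u w ⁻¹' C) l)).toReal) :=
        mul_le_mul_of_nonneg_left (by linarith) hl0.le
      rw [div_le_iff₀ (by linarith)]
      linarith
    · by_contra hcon
      push Not at hcon
      have hg0 : 0 < g := by
        rcases hg.lt_or_eq with h | h
        · exact h
        · rw [← h] at hcon
          linarith
      apply hno
      refine (hexPsi C hC hk u w huw l L hl hlL hneL hmax (by linarith) hL).mono ?_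
      have h5 : (l + L) * g ≤ (l + L) * (volume (Yset (fr u w ⁻¹' C) l)).toReal :=
        mul_le_mul_of_nonneg_left hwl (by linarith)
      rw [div_le_iff₀ (by linarith)]
      linarith

end Pool.Agent.MP49888f.HX
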