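import Mathlib

/-! MP_49888f_co, board HX (helper47): an elementary inequality in four variables. -/

set_option autoImplicit false

namespace Pool.Agent.MP49888f.HX

theorem coreII {p q a b : ℝ} (ha : 0 ≤ a) (hb : 0 ≤ b) (haq : a ≤ q) (hbp : b ≤ p) (hp : p ≤ 1)
    (hq : q ≤ 1) (hT : 4 / 3 ≤ p * q + a + b - a * b)
    (i1 : (q - a) * p ≤ (1 + a) * (p - b)) (i2 : (p - b) * q ≤ (1 + b) * (q - a))
    (h1 : 6 * (p * (1 + a)) < 5 * (p * q + a + b - a * b))
    (h2 : 6 * (q * (1 + b)) < 5 * (p * q + a + b - a * b)) : False := by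
  have hqa : 0 ≤ q - a := sub_nonneg.2 haq
  have hpb : 0 ≤ p - b := sub_nonneg.2 hbp
  have hp1 : 0 ≤ 1 - p := sub_nonneg.2 hp
  have hq1 : 0 ≤ 1 - q := sub_nonneg.2 hq
  have hT4 : 0 ≤ 3 * (p * q + a + b - a * b) - 4 := by linarith
  have hi1 : 0 ≤ (1 + a) * (p - b) - (q - a) * p := sub_nonneg.2 i1
  have hi2 : 0 ≤ (1 + b) * (q - a) - (p - b) * q := sub_nonneg.2 i2
  have hh1 : 0 < 5 * (p * q + a + b - a * b) - 6 * (p * (1 + a)) := sub_pos.2 h1
  have hh2 : 0 < 5 * (p * q + a + b - a * b) - 6 * (q * (1 + b)) := sub_pos.2 h2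
  have t0 := mul_nonneg hi1 hi2
  have t1 := mul_nonneg (mul_nonneg hq1 hq1) hi1
  have t2 := mul_nonneg (mul_nonneg ha hp1) hi2
  have t3 := mul_nonneg (mul_nonneg ha hqa) (sq_nonneg (p + q + a + b - 8 / 3))
  have t4 := mul_nonneg (mul_nonneg hqa hpb) (sq_nonneg (p + a - b - q))
  have t5 := mul_nonneg (mul_nonneg hb hp1) hT4
  have t6 := mul_nonneg (mul_nonneg hqa hpb) hh2.le
  have t7 := mul_nonneg (mul_nonneg hqa hpb) hh1.le
  have t8 := mul_nonneg (mul_nonneg hpb hq1) (sq_nonneg (p + q - a - b))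
  have t9 := mul_nonneg (mul_nonneg ha hq1) hT4
  have t10 := mul_nonneg (mul_nonneg hqa hp1) (sq_nonneg (p + q - a - b))
  have t11 := mul_nonneg (mul_nonneg hb hq1) hi1
  have t12 := mul_nonneg (mul_nonneg (mul_nonneg hpb hpb) hpb) hp1
  have t13 := mul_nonneg (mul_nonneg hb hq1) hT4
  have t14 := mul_nonneg (mul_nonneg hb hqa) (sq_nonneg (p + q + a + b - 8 / 3))
  have t15 := mul_nonneg hb (sq_nonneg (p + q + a + b - 8 / 3))
  have t16 := mul_nonneg hi2 hh1.le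
  have t17 := mul_nonneg (mul_nonneg ha hqa) (sq_nonneg (p + a - b - q))
  have t18 := mul_nonneg hi1 hh2.le
  have t19 := mul_nonneg (mul_nonneg ha hq1) (sq_nonneg (p + q + a + b - 8 / 3))
  have t20 := mul_nonneg hqa (sq_nonneg (p + q + a + b - 8 / 3))
  have t21 := mul_nonneg hq1 hh1.le
  have t22 := mul_nonneg (mul_nonneg ha hq1) hh2.le
  have t23 := mul_nonneg (mul_nonneg hp1 hq1) (sq_nonneg (p - q))
  have t24 := mul_nonneg hp1 hh2.le
  have t25 := mul_nonneg (mul_nonneg hqa hqa) (sq_nonneg (p - q))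
  have t26 := mul_nonneg (mul_nonneg ha hp1) hT4
  have t27 := mul_nonneg (mul_nonneg ha hp1) hh2.le
  have t28 := mul_nonneg (mul_nonneg hpb hpb) (sq_nonneg (p + a - b - q))
  have t29 := mul_nonneg (mul_nonneg hqa hp1) hh1.le
  have t30 := mul_nonneg (mul_nonneg hb hpb) hh2.le
  have t31 := mul_nonneg hb hh1.le
  have t32 := mul_nonneg hi1 (sq_nonneg (3 * a - 2))
  have t33 := mul_nonneg (mul_nonneg ha hqa) hh2.le
  have t34 := mul_nonneg (mul_nonneg hq1 hq1) hT4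
  have t35 := mul_nonneg hpb (sq_nonneg (p + q + a + b - 8 / 3))
  have t36 := mul_nonneg (mul_nonneg hqa hq1) (sq_nonneg (3 * q - 2))
  have t37 := mul_nonneg hqa hh2.le
  have t38 := mul_nonneg hp1 hT4
  have t39 := mul_nonneg (mul_nonneg ha ha) (sq_nonneg (3 * p + 3 * a - 4))
  have t40 := mul_nonneg (mul_nonneg hb hp1) hh1.le
  have t41 := mul_nonneg (mul_nonneg hqa hqa) hh1.le
  have t42 := mul_nonneg (mul_nonneg hb hpb) (sq_nonneg (3 * q + 3 * b - 4))
  have t43 := mul_nonneg (mul_nonneg ha hpb) hh1.le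
  have t44 := mul_nonneg (sq_nonneg (p - q)) (sq_nonneg (p + q - a - b))
  have t45 := mul_nonneg (mul_nonneg hpb hpb) hh1.le
  have t46 := mul_nonneg hpb hh1.le
  have t47 := mul_nonneg hi2 (sq_nonneg (3 * b - 2))
  have t48 := mul_nonneg (mul_nonneg hqa hqa) (sq_nonneg (3 * q + 3 * b - 4))
  have t49 := mul_nonneg (mul_nonneg hb hb) hh2.le
  have t50 := mul_nonneg (mul_nonneg hqa hpb) (sq_nonneg (3 * a - 2))
  have t51 := mul_nonneg hh1.le (sq_nonneg (a - b))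
  have t52 := mul_nonneg hT4 hh2.le
  have t53 := mul_nonneg hh2.le (sq_nonneg (3 * q + 3 * b - 4))
  have t54 := mul_nonneg (mul_nonneg hpb hpb) (sq_nonneg (3 * p + 3 * a - 4))
  have t55 := mul_nonneg (sq_nonneg (q - b)) (sq_nonneg (q - b))
  have t56 := mul_nonneg (mul_nonneg hb hp1) (sq_nonneg (3 * p + 3 * b - 4))
  have t57 := mul_nonneg (sq_nonneg (3 * a + 3 * b - 4)) (sq_nonneg (p + q - a - b))
  have t58 := mul_nonneg (mul_nonneg ha hq1) (sq_nonneg (3 * q - 2))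
  have t59 := mul_nonneg (sq_nonneg (p - a)) (sq_nonneg (3 * q + 3 * a - 4))
  have t60 := mul_nonneg (mul_nonneg hqa hqa) hh2.le
  have t61 := mul_nonneg (mul_nonneg ha ha) (sq_nonneg (3 * q + 3 * a - 4))
  have t62 := mul_nonneg (mul_nonneg ha hp1) (sq_nonneg (p - a))
  have t63 := mul_nonneg (mul_nonneg ha ha) hh1.le
  have t64 := mul_nonneg hh2.le (sq_nonneg (3 * p - 2))
  have t65 := mul_nonneg (sq_nonneg (3 * a + 3 * b - 4)) (sq_nonneg (3 * a + 3 * b - 4))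
  have t66 := mul_nonneg (mul_nonneg hb hb) (sq_nonneg (3 * b - 2))
  have t67 := mul_nonneg (mul_nonneg hb hpb) (sq_nonneg (3 * p - 2))
  have t68 := mul_nonneg (sq_nonneg (p - q)) (sq_nonneg (3 * p - 2))
  clear ha hb haq hbp hp hq hT i1 i2 h1 h2 hqa hpb hp1 hq1 hT4 hi1 hi2
  linarith only [hh1, hh2, t0, t1, t2, t3, t4, t5, t6, t7, t8, t9, t10, t11, t12, t13, t14, t15, t16, t17, t18, t19, t20, t21, t22, t23, t24, t25, t26, t27, t28, t29, t30, t31, t32, t33, t34, t35, t36, t37, t38, t39, t40, t41, t42, t43, t44, t45, t46, t47, t48, t49, t50, t51, t52, t53, t54, t55, t56, t57, t58, t59, t60, t61, t62, t63, t64, t65, t66, t67, t68]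

end Pool.Agent.MP49888f.HX
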