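import Pool.Agent.Lib.MP_49888f_co.CV.Asm

/-! MP_49888f_co, polygons with vertices on three parallel lines and two extreme vertices: definitions (helper47). -/

set_option autoImplicit false

namespace Pool.Agent.MP49888f.HX

open MeasureTheory Set Pool.Agent.MP49888f.CV

/-- two horizontal chords of length `l` at vertical distance `g` -/
def Adm (S : Set (ℝ × ℝ)) (l g : ℝ) : Prop := ∃ y, y ∈ Yset S l ∧ y + g ∈ Yset S l

/-- `c` is the length of the slice of `S` at height `y` -/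
def Len (S : Set (ℝ × ℝ)) (y c : ℝ) : Prop :=
  0 ≤ c ∧ y ∈ Yset S c ∧ ∀ l, y ∈ Yset S l → l ≤ c

/-- no vertex between the heights `a` and `b` -/
def Gap (S : Set (ℝ × ℝ)) (a b : ℝ) : Prop :=
  ∀ p ∈ S, a < p.2 → p.2 < b → ∃ x0 x1 : ℝ, (x0, a) ∈ S ∧ (x1, b) ∈ S ∧
    (b - a) * p.1 = (b - p.2) * x0 + (p.2 - a) * x1

end Pool.Agent.MP49888f.HX
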