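import Pool.Agent.Lib.MP_49888f_co.HX.Defs

/-! MP_49888f_co, board HX, module Ext. -/

set_option autoImplicit false

namespace Pool.Agent.MP49888f.HX

open MeasureTheory Set Pool.Agent.MP49888f.CV

theorem ext_point (V : Set E2) (g : E2 →ₗ[ℝ] ℝ) (y : E2) (b : ℝ) (hb : g y < b)
    (h : ∀ z ∈ V, z = y ∨ b ≤ g z) : ∀ z ∈ convexHull ℝ V, g z ≤ g y → z = y := by
  intro z hz hzy
  set V2 : Set E2 := {z | z ∈ V ∧ b ≤ g z} with hV2
  have hsub : V ⊆ insert y V2 := by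
    intro x hx
    rcases h x hx with h1 | h1
    · exact Or.inl h1
    · exact Or.inr ⟨hx, h1⟩
  have hz' : z ∈ convexHull ℝ (insert y V2) := convexHull_mono hsub hz
  rcases V2.eq_empty_or_nonempty with hn | hn
  · rw [hn] at hz'
    simpa using hz'
  · rw [convexHull_insert hn, mem_convexJoin] at hz'
    obtain ⟨q0, hq0, q1, hq1, s, t, hs, ht, hst, e⟩ := hz'
    have hq0' : q0 = y := by simpa using hq0
    have hull : convexHull ℝ V2 ⊆ {z : E2 | b ≤ g z} :=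
      convexHull_min (fun z hz => hz.2) (convex_halfSpace_ge g.isLinear b)
    have h1 : b ≤ g q1 := hull hq1
    have e2 : g z = s * g y + t * g q1 := by
      rw [← e, hq0']; simp
    have hs1 : s = 1 - t := by linarith
    have ht0 : t = 0 := by
      by_contra hne
      have htp : 0 < t := lt_of_le_of_ne ht (Ne.symm hne)
      rw [e2, hs1] at hzy
      nlinarith [mul_pos htp (by linarith : 0 < g q1 - g y)]
    rw [← e, hq0', ht0, hs1, ht0]
    simp

/-- every nonempty horizontal slice has a length -/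
theorem exists_len (S : Set (ℝ × ℝ)) (hc : Convex ℝ S) (hk : IsCompact S) (y : ℝ)
    (hy : y ∈ Yset S 0) : ∃ c, Len S y c := by
  obtain ⟨x, hx, _⟩ := hy
  have hK : IsCompact ({p : (ℝ × ℝ) × (ℝ × ℝ) | p.1.2 = y ∧ p.2.2 = y} ∩ (S ×ˢ S)) := by
    refine IsCompact.inter_left (hk.prod hk) ?_
    have c1 : IsClosed {p : (ℝ × ℝ) × (ℝ × ℝ) | p.1.2 = y} := isClosed_eq (by fun_prop) continuous_const
    have c2 : IsClosed {p : (ℝ × ℝ) × (ℝ × ℝ) | p.2.2 = y} := isClosed_eq (by fun_prop) continuous_const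
    exact c1.inter c2
  obtain ⟨⟨⟨x0, y0⟩, ⟨x1, y1⟩⟩, hp, hmax⟩ := hK.exists_isMaxOn (f := fun p : (ℝ × ℝ) × (ℝ × ℝ) => p.2.1 - p.1.1)
    ⟨((x, y), (x, y)), ⟨rfl, rfl⟩, hx, hx⟩ (by fun_prop)
  obtain ⟨⟨e0, e1⟩, m0, m1⟩ := hp
  have e0' : y0 = y := e0
  have e1' : y1 = y := e1
  have m0' : (x0, y) ∈ S := by rw [← e0']; exact m0
  have m1' : (x1, y) ∈ S := by rw [← e1']; exact m1
  have hM : ∀ a c : ℝ, (a, y) ∈ S → (c, y) ∈ S → c - a ≤ x1 - x0 := by
    intro a c ha hc'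
    exact hmax (a := ((a, y), (c, y))) ⟨⟨rfl, rfl⟩, ha, hc'⟩
  refine ⟨x1 - x0, ?_, ⟨x0, m0', ?_⟩, ?_⟩
  · have := hM x x hx hx
    linarith
  · have : x0 + (x1 - x0) = x1 := by ring
    rw [this]; exact m1'
  · rintro l ⟨a, ha, hb⟩
    have := hM a (a + l) ha hb
    linarith

end Pool.Agent.MP49888f.HX
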