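import Pool.Agent.Lib.MP_49888f_co.HX.Defs

/-! MP_49888f_co, board HX, module Gap. -/

set_option autoImplicit false

namespace Pool.Agent.MP49888f.HX

open MeasureTheory Set Pool.Agent.MP49888f.CV

private theorem gap_convex_le (u : E2) (c : ℝ) : Convex ℝ {z : E2 | cr u z ≤ c} := by
  intro x hx y hy s t hs ht hst
  simp only [mem_ofPred_eq] at hx hy ⊢
  rw [cr_add_right, cr_smul_right, cr_smul_right]
  have h1 := mul_le_mul_of_nonneg_left hx hs
  have h2 := mul_le_mul_of_nonneg_left hy ht
  have h3 : s * c + t * c = c := by rw [← add_mul, hst, one_mul]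
  linarith

private theorem gap_convex_ge (u : E2) (c : ℝ) : Convex ℝ {z : E2 | c ≤ cr u z} := by
  intro x hx y hy s t hs ht hst
  simp only [mem_ofPred_eq] at hx hy ⊢
  rw [cr_add_right, cr_smul_right, cr_smul_right]
  have h1 := mul_le_mul_of_nonneg_left hx hs
  have h2 := mul_le_mul_of_nonneg_left hy ht
  have h3 : s * c + t * c = c := by rw [← add_mul, hst, one_mul]
  linarith

private theorem gap_cr_fr_two (u w : E2) (huw : cr u w = 1) (p : ℝ × ℝ) :
    cr u (fr u w p) = p.2 := by
  unfold fr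
  rw [cr_add_right, cr_smul_right, cr_smul_right, cr_self, huw]
  ring

private theorem gap_cr_fr_one (u w : E2) (huw : cr u w = 1) (p : ℝ × ℝ) :
    cr (fr u w p) w = p.1 := by
  unfold fr
  rw [cr_add_left, cr_smul_left, cr_smul_left, cr_self, huw]
  ring

theorem gap_hull (V : Set E2) (u w : E2) (huw : cr u w = 1) (a b : ℝ) (hab : a < b)
    (h : ∀ z ∈ V, cr u z ≤ a ∨ b ≤ cr u z) : Gap (fr u w ⁻¹' convexHull ℝ V) a b := by
  intro p hp hpa hpb
  have hx : fr u w p ∈ convexHull ℝ V := hp
  have hx2 := gap_cr_fr_two u w huw p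
  have hx1 := gap_cr_fr_one u w huw p
  generalize fr u w p = x at hx hx1 hx2
  have hV : V = {z ∈ V | cr u z ≤ a} ∪ {z ∈ V | b ≤ cr u z} := by
    ext z
    constructor
    · intro hz
      rcases h z hz with h1 | h1
      · exact Or.inl ⟨hz, h1⟩
      · exact Or.inr ⟨hz, h1⟩
    · rintro (hz | hz)
      · exact hz.1
      · exact hz.1
  have hne1 : {z ∈ V | cr u z ≤ a}.Nonempty := by
    by_contra hcon
    rw [Set.not_nonempty_iff_eq_empty] at hcon
    have hsub : V ⊆ {z : E2 | b ≤ cr u z} := by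
      intro z hz
      rcases h z hz with h1 | h1
      · exact absurd (show z ∈ {z ∈ V | cr u z ≤ a} from ⟨hz, h1⟩) (by rw [hcon]; exact id)
      · exact h1
    have := convexHull_min hsub (gap_convex_ge u b) hx
    simp only [mem_ofPred_eq] at this
    linarith
  have hne2 : {z ∈ V | b ≤ cr u z}.Nonempty := by
    by_contra hcon
    rw [Set.not_nonempty_iff_eq_empty] at hcon
    have hsub : V ⊆ {z : E2 | cr u z ≤ a} := by
      intro z hz
      rcases h z hz with h1 | h1
      · exact h1
      · exact absurd (show z ∈ {z ∈ V | b ≤ cr u z} from ⟨hz, h1⟩) (by rw [hcon]; exact id)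
    have := convexHull_min hsub (gap_convex_le u a) hx
    simp only [mem_ofPred_eq] at this
    linarith
  rw [hV, convexHull_union hne1 hne2, mem_convexJoin] at hx
  obtain ⟨q0, hq0, q1, hq1, s, t, hs, ht, hst, e⟩ := hx
  have g0 : cr u q0 ≤ a := convexHull_min (fun z hz => hz.2) (gap_convex_le u a) hq0
  have g1 : b ≤ cr u q1 := convexHull_min (fun z hz => hz.2) (gap_convex_ge u b) hq1
  have m0 : q0 ∈ convexHull ℝ V := convexHull_mono (fun z hz => hz.1) hq0
  have m1 : q1 ∈ convexHull ℝ V := convexHull_mono (fun z hz => hz.1) hq1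
  have hD : 0 < cr u q1 - cr u q0 := by linarith
  have key : ∀ c : ℝ, cr u q0 ≤ c → c ≤ cr u q1 →
      ((cr u q1 - c) / (cr u q1 - cr u q0)) • q0 + ((c - cr u q0) / (cr u q1 - cr u q0)) • q1 ∈
        convexHull ℝ V := by
    intro c h1 h2
    exact (convex_convexHull ℝ V) m0 m1 (div_nonneg (by linarith) hD.le)
      (div_nonneg (by linarith) hD.le) (by field_simp; ring)
  have mem : ∀ c : ℝ, cr u q0 ≤ c → c ≤ cr u q1 →
      (((cr u q1 - c) * cr q0 w + (c - cr u q0) * cr q1 w) / (cr u q1 - cr u q0), c) ∈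
        fr u w ⁻¹' convexHull ℝ V := by
    intro c h1 h2
    have hk := key c h1 h2
    rw [← fr_coord u w huw (((cr u q1 - c) / (cr u q1 - cr u q0)) • q0 +
      ((c - cr u q0) / (cr u q1 - cr u q0)) • q1)] at hk
    have i1 : cr (((cr u q1 - c) / (cr u q1 - cr u q0)) • q0 +
        ((c - cr u q0) / (cr u q1 - cr u q0)) • q1) w =
        ((cr u q1 - c) * cr q0 w + (c - cr u q0) * cr q1 w) / (cr u q1 - cr u q0) := by
      rw [cr_add_left, cr_smul_left, cr_smul_left]
      field_simp
    have i2 : cr u (((cr u q1 - c) / (cr u q1 - cr u q0)) • q0 +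
        ((c - cr u q0) / (cr u q1 - cr u q0)) • q1) = c := by
      rw [cr_add_right, cr_smul_right, cr_smul_right]
      field_simp
      ring
    rw [i1, i2] at hk
    exact hk
  refine ⟨_, _, mem a g0 (by linarith), mem b (by linarith) g1, ?_⟩
  have e1 : p.1 = s * cr q0 w + t * cr q1 w := by
    rw [← hx1, ← e, cr_add_left, cr_smul_left, cr_smul_left]
  have e2 : p.2 = s * cr u q0 + t * cr u q1 := by
    rw [← hx2, ← e, cr_add_right, cr_smul_right, cr_smul_right]
  have es : s = 1 - t := by linarith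
  rw [e1, e2, es]
  field_simp
  ring

end Pool.Agent.MP49888f.HX
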