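import Pool.Agent.Lib.MP_49888f_co.HX.Defs

/-! MP_49888f_co: the length of a slice between two consecutive vertex heights (helper47). -/

set_option autoImplicit false

namespace Pool.Agent.MP49888f.HX

open MeasureTheory Set Pool.Agent.MP49888f.CV

theorem gap_len (S : Set (ℝ × ℝ)) {a b ca cb y l : ℝ} (hg : Gap S a b)
    (ha : ∀ l, a ∈ Yset S l → l ≤ ca) (hb : ∀ l, b ∈ Yset S l → l ≤ cb)
    (hay : a < y) (hyb : y < b) (hl : y ∈ Yset S l) :
    (b - a) * l ≤ (b - y) * ca + (y - a) * cb := by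
  obtain ⟨x, h1, h2⟩ := hl
  obtain ⟨x0, x1, k0, k1, e⟩ := hg _ h1 hay hyb
  obtain ⟨x0', x1', k0', k1', e'⟩ := hg _ h2 hay hyb
  have ja := ha (x0' - x0) ⟨x0, k0, by rw [add_sub_cancel]; exact k0'⟩
  have jb := hb (x1' - x1) ⟨x1, k1, by rw [add_sub_cancel]; exact k1'⟩
  simp only at e e'
  have m1 := mul_le_mul_of_nonneg_left ja (sub_nonneg.mpr hyb.le)
  have m2 := mul_le_mul_of_nonneg_left jb (sub_nonneg.mpr hay.le)
  nlinarith

end Pool.Agent.MP49888f.HX
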