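import Pool.Agent.Lib.MP_49888f_co.HX.Shape

/-! MP_49888f_co, board HX, module Nodes: pure real analysis, uses only `shape`.
Y s e means: there is a chord of (normalised) length s at (normalised) height e. Nodes e1 <= e2 <= e3 with exact lengths k1, k2, k3. -/

set_option autoImplicit false

namespace Pool.Agent.MP49888f.HX

private theorem nodes_aux (Y : ℝ → ℝ → Prop)
    (mix : ∀ s1 s2 e1 e2 a b : ℝ, Y s1 e1 → Y s2 e2 → 0 ≤ a → 0 ≤ b → a + b = 1 →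
      Y (a * s1 + b * s2) (a * e1 + b * e2))
    {T0 T s1 p1 q1 s2 p2 q2 : ℝ} (a1 : Y s1 p1) (b1 : Y s1 q1) (a2 : Y s2 p2) (b2 : Y s2 q2)
    (h1 : 0 ≤ s1) (h2 : s1 ≤ s2) (h3 : s2 ≤ 1) (h4 : p2 ≤ q2) (h5 : q2 - p2 ≤ q1 - p1)
    (h6 : q1 - p1 ≤ 1)
    (hT : T = s1 + (q2 - p2) + (q1 - p1) * s2 - (q2 - p2) * s1) (hT0 : 4 / 3 ≤ T0)
    (hTT : T0 ≤ T)
    (hA : ∀ s e g : ℝ, 0 ≤ s → s ≤ 1 → 0 ≤ g → Y s e → Y s (e + g) →
      6 * (s * (1 + g)) < 5 * T0 ∧ 6 * ((1 + s) * g) < 5 * T0) : False := by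
  refine shape (T := T) h1 h2 h3 (sub_nonneg.2 h4) h5 h6 hT (hT0.trans hTT) ?_
  intro t ht0 ht1
  have A := mix s1 s2 p1 p2 (1 - t) t a1 a2 (by linarith) ht0 (by ring)
  have B := mix s1 s2 q1 q2 (1 - t) t b1 b2 (by linarith) ht0 (by ring)
  have es : (1 - t) * s1 + t * s2 = s1 + t * (s2 - s1) := by ring
  have eg : (1 - t) * q1 + t * q2 =
      ((1 - t) * p1 + t * p2) + ((q1 - p1) + t * ((q2 - p2) - (q1 - p1))) := by ring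
  rw [es] at A B
  rw [eg] at B
  have hs : 0 ≤ t * (s2 - s1) := mul_nonneg ht0 (sub_nonneg.2 h2)
  have hs' : t * (s2 - s1) ≤ 1 * (s2 - s1) := mul_le_mul_of_nonneg_right ht1 (sub_nonneg.2 h2)
  have hg' : (1 - t) * (q1 - p1) + t * (q2 - p2) =
      (q1 - p1) + t * ((q2 - p2) - (q1 - p1)) := by ring
  have hg : 0 ≤ (q1 - p1) + t * ((q2 - p2) - (q1 - p1)) := by
    rw [← hg']
    have k1 : 0 ≤ (1 - t) * (q1 - p1) := mul_nonneg (by linarith) (by linarith)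
    have k2 : 0 ≤ t * (q2 - p2) := mul_nonneg ht0 (by linarith)
    linarith
  have := hA _ _ _ (by linarith) (by linarith) hg A B
  exact ⟨by linarith [this.1], by linarith [this.2]⟩

private theorem nodes_one (Y : ℝ → ℝ → Prop)
    (mix : ∀ s1 s2 e1 e2 a b : ℝ, Y s1 e1 → Y s2 e2 → 0 ≤ a → 0 ≤ b → a + b = 1 →
      Y (a * s1 + b * s2) (a * e1 + b * e2))
    (h0 : Y 0 0) {e1 e2 e3 k2 k3 T0 : ℝ} (he0 : 0 ≤ e1) (he12 : e1 ≤ e2)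
    (he23 : e2 ≤ e3) (he3 : e3 ≤ 1) (hk2 : 0 ≤ k2) (hk3 : 0 ≤ k3)
    (hk2' : k2 ≤ 1) (hk3' : k3 ≤ 1)
    (y1 : Y 1 e1) (y2 : Y k2 e2) (y3 : Y k3 e3)
    (x2 : ∀ s, Y s e2 → s ≤ k2)
    (hT : T0 ≤ e2 + k2 * (e3 - e1) + k3 * (1 - e2)) (hT0 : 4 / 3 ≤ T0)
    (hA : ∀ s e g : ℝ, 0 ≤ s → s ≤ 1 → 0 ≤ g → Y s e → Y s (e + g) →
      6 * (s * (1 + g)) < 5 * T0 ∧ 6 * ((1 + s) * g) < 5 * T0) : False := by
  have h32 : k3 ≤ k2 := by
    rcases eq_or_lt_of_le (he12.trans he23) with h | h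
    · have : e1 = e2 := le_antisymm he12 (h ▸ he23)
      exact hk3'.trans (x2 1 (this ▸ y1))
    · have hd : 0 < e3 - e1 := sub_pos.2 h
      have hd' : e3 - e1 ≠ 0 := hd.ne'
      have hm := mix 1 k3 e1 e3 ((e3 - e2) / (e3 - e1)) ((e2 - e1) / (e3 - e1)) y1 y3
        (div_nonneg (sub_nonneg.2 he23) hd.le) (div_nonneg (sub_nonneg.2 he12) hd.le)
        (by field_simp; ring)
      have e : (e3 - e2) / (e3 - e1) * e1 + (e2 - e1) / (e3 - e1) * e3 = e2 := by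
        field_simp; ring
      rw [e] at hm
      have h5 := x2 _ hm
      have h6 : (e3 - e2) / (e3 - e1) + (e2 - e1) / (e3 - e1) = 1 := by field_simp; ring
      have h7 : 0 ≤ (e3 - e2) / (e3 - e1) := div_nonneg (sub_nonneg.2 he23) hd.le
      have h8 : (e2 - e1) / (e3 - e1) = 1 - (e3 - e2) / (e3 - e1) := by linarith
      rw [h8] at h5
      nlinarith [mul_nonneg h7 (sub_nonneg.2 hk3')]
  have a1 := mix 0 1 0 e1 (1 - k3) k3 h0 y1 (by linarith) hk3 (by ring)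
  have a2 := mix 0 1 0 e1 (1 - k2) k2 h0 y1 (by linarith) hk2 (by ring)
  have r1 : (1 - k3) * 0 + k3 * 1 = k3 := by ring
  have r2 : (1 - k3) * 0 + k3 * e1 = k3 * e1 := by ring
  have r3 : (1 - k2) * 0 + k2 * 1 = k2 := by ring
  have r4 : (1 - k2) * 0 + k2 * e1 = k2 * e1 := by ring
  rw [r1, r2] at a1
  rw [r3, r4] at a2
  have m1 : k2 * e1 ≤ 1 * e1 := mul_le_mul_of_nonneg_right hk2' he0
  have m2 : k3 * e1 ≤ k2 * e1 := mul_le_mul_of_nonneg_right h32 he0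
  have m3 : 0 ≤ k3 * e1 := mul_nonneg hk3 he0
  exact nodes_aux Y mix (T := e2 + k2 * (e3 - e1) + k3 * (1 - e2)) a1 y3 a2 y2 hk3 h32 hk2'
    (by linarith) (by linarith) (by linarith) (by ring) hT0 hT hA

private theorem nodes_two (Y : ℝ → ℝ → Prop)
    (mix : ∀ s1 s2 e1 e2 a b : ℝ, Y s1 e1 → Y s2 e2 → 0 ≤ a → 0 ≤ b → a + b = 1 →
      Y (a * s1 + b * s2) (a * e1 + b * e2))
    (h0 : Y 0 0) {e1 e2 e3 k1 k3 T0 : ℝ} (he0 : 0 ≤ e1) (he12 : e1 ≤ e2)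
    (he23 : e2 ≤ e3) (he3 : e3 ≤ 1) (hk1 : 0 ≤ k1) (hk3 : 0 ≤ k3)
    (hk1' : k1 ≤ 1) (h31 : k3 ≤ k1)
    (y1 : Y k1 e1) (y2 : Y 1 e2) (y3 : Y k3 e3)
    (hT : T0 ≤ k1 * e2 + (e3 - e1) + k3 * (1 - e2)) (hT0 : 4 / 3 ≤ T0)
    (hA : ∀ s e g : ℝ, 0 ≤ s → s ≤ 1 → 0 ≤ g → Y s e → Y s (e + g) →
      6 * (s * (1 + g)) < 5 * T0 ∧ 6 * ((1 + s) * g) < 5 * T0) : False := by
  rcases eq_or_lt_of_le hk1 with h | h
  · have hk : k3 = 0 := le_antisymm (h ▸ h31) hk3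
    rw [← h, hk] at hT
    linarith
  have hk : k1 ≠ 0 := h.ne'
  have a1 := mix 0 k1 0 e1 (1 - k3 / k1) (k3 / k1) h0 y1
    (by rw [sub_nonneg]; exact (div_le_one h).2 h31) (div_nonneg hk3 hk1) (by ring)
  have r1 : (1 - k3 / k1) * 0 + k3 / k1 * k1 = k3 := by field_simp; ring
  have r2 : (1 - k3 / k1) * 0 + k3 / k1 * e1 = k3 / k1 * e1 := by ring
  rw [r1, r2] at a1
  have m0 : k3 / k1 ≤ 1 := (div_le_one h).2 h31
  have m1 : k3 / k1 * e1 ≤ 1 * e1 := mul_le_mul_of_nonneg_right m0 he0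
  have m2 : 0 ≤ k3 / k1 * e1 := mul_nonneg (div_nonneg hk3 hk1) he0
  rcases eq_or_lt_of_le (h31.trans hk1') with g | g
  · have g1 : k1 = 1 := le_antisymm hk1' (g ▸ h31)
    subst g
    subst g1
    exact nodes_aux Y mix (T := 1 * e2 + (e3 - e1) + 1 * (1 - e2)) y1 y3 y1 y3 hk3 le_rfl hk1'
      (by linarith) le_rfl (by linarith) (by ring) hT0 hT hA
  · have hd : 0 < 1 - k3 := sub_pos.2 g
    have hd' : 1 - k3 ≠ 0 := hd.ne'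
    have l0 : 0 ≤ (1 - k1) / (1 - k3) := div_nonneg (sub_nonneg.2 hk1') hd.le
    have l1 : (1 - k1) / (1 - k3) ≤ 1 := (div_le_one hd).2 (by linarith)
    have b2 := mix 1 k3 e2 e3 (1 - (1 - k1) / (1 - k3)) ((1 - k1) / (1 - k3)) y2 y3
      (by linarith) l0 (by ring)
    have r3 : (1 - (1 - k1) / (1 - k3)) * 1 + (1 - k1) / (1 - k3) * k3 = k1 := by
      field_simp; ring
    have r4 : (1 - (1 - k1) / (1 - k3)) * e2 + (1 - k1) / (1 - k3) * e3 =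
      e2 + (1 - k1) / (1 - k3) * (e3 - e2) := by ring
    rw [r3, r4] at b2
    have n1 : 0 ≤ (1 - k1) / (1 - k3) * (e3 - e2) := mul_nonneg l0 (sub_nonneg.2 he23)
    have n2 : (1 - k1) / (1 - k3) * (e3 - e2) ≤ 1 * (e3 - e2) :=
      mul_le_mul_of_nonneg_right l1 (sub_nonneg.2 he23)
    refine nodes_aux Y mix (T := k1 * e2 + (e3 - e1) + k3 * (1 - e2)) a1 y3 y1 b2 hk3 h31 hk1'
      (by linarith) (by linarith) (by linarith) ?_ hT0 hT hA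
    field_simp
    ring

theorem nodes_norm (Y : ℝ → ℝ → Prop)
    (mix : ∀ s1 s2 e1 e2 a b : ℝ, Y s1 e1 → Y s2 e2 → 0 ≤ a → 0 ≤ b → a + b = 1 →
      Y (a * s1 + b * s2) (a * e1 + b * e2))
    (h0 : Y 0 0) (h1 : Y 0 1) {e1 e2 e3 k1 k2 k3 T0 : ℝ} (he0 : 0 ≤ e1) (he12 : e1 ≤ e2)
    (he23 : e2 ≤ e3) (he3 : e3 ≤ 1) (hk1 : 0 ≤ k1) (hk2 : 0 ≤ k2) (hk3 : 0 ≤ k3)
    (hk1' : k1 ≤ 1) (hk2' : k2 ≤ 1) (hk3' : k3 ≤ 1)
    (y1 : Y k1 e1) (y2 : Y k2 e2) (y3 : Y k3 e3) (x1 : ∀ s, Y s e1 → s ≤ k1)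
    (x2 : ∀ s, Y s e2 → s ≤ k2) (x3 : ∀ s, Y s e3 → s ≤ k3) (hone : k1 = 1 ∨ k2 = 1 ∨ k3 = 1)
    (hT : T0 ≤ k1 * e2 + k2 * (e3 - e1) + k3 * (1 - e2)) (hT0 : 4 / 3 ≤ T0)
    (hA : ∀ s e g : ℝ, 0 ≤ s → s ≤ 1 → 0 ≤ g → Y s e → Y s (e + g) →
      6 * (s * (1 + g)) < 5 * T0 ∧ 6 * ((1 + s) * g) < 5 * T0) : False := by
  have mix' : ∀ s1 s2 e1 e2 a b : ℝ, Y s1 (1 - e1) → Y s2 (1 - e2) → 0 ≤ a → 0 ≤ b →
      a + b = 1 → Y (a * s1 + b * s2) (1 - (a * e1 + b * e2)) := by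
    intro s1 s2 e1 e2 a b u v ha hb hab
    have := mix s1 s2 _ _ a b u v ha hb hab
    have e : a * (1 - e1) + b * (1 - e2) = 1 - (a * e1 + b * e2) := by
      have : b = 1 - a := by linarith
      rw [this]; ring
    rwa [e] at this
  have hA' : ∀ s e g : ℝ, 0 ≤ s → s ≤ 1 → 0 ≤ g → Y s (1 - e) → Y s (1 - (e + g)) →
      6 * (s * (1 + g)) < 5 * T0 ∧ 6 * ((1 + s) * g) < 5 * T0 := by
    intro s e g a1 a2 a3 u v
    refine hA s (1 - (e + g)) g a1 a2 a3 v ?_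
    have e : 1 - (e + g) + g = 1 - e := by ring
    rwa [e]
  have h0' : Y 0 (1 - 0) := by rwa [sub_zero]
  have z1 : Y k1 (1 - (1 - e1)) := by rwa [sub_sub_cancel]
  have z2 : Y k2 (1 - (1 - e2)) := by rwa [sub_sub_cancel]
  have z3 : Y k3 (1 - (1 - e3)) := by rwa [sub_sub_cancel]
  have w2 : ∀ s, Y s (1 - (1 - e2)) → s ≤ k2 := by
    intro s hs
    rw [sub_sub_cancel] at hs
    exact x2 s hs
  rcases hone with h | h | h
  · subst h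
    exact nodes_one Y mix h0 he0 he12 he23 he3 hk2 hk3 hk2' hk3' y1 y2 y3 x2
      (by linarith) hT0 hA
  · subst h
    rcases le_total k3 k1 with g | g
    · exact nodes_two Y mix h0 he0 he12 he23 he3 hk1 hk3 hk1' g y1 y2 y3 (by linarith) hT0 hA
    · exact nodes_two (fun s e => Y s (1 - e)) mix' h0' (e1 := 1 - e3) (e2 := 1 - e2)
        (e3 := 1 - e1) (by linarith) (by linarith) (by linarith) (by linarith) hk3 hk1 hk3' g
        z3 z2 z1 (by linarith) hT0 hA'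
  · subst h
    exact nodes_one (fun s e => Y s (1 - e)) mix' h0' (e1 := 1 - e3) (e2 := 1 - e2)
      (e3 := 1 - e1) (by linarith) (by linarith) (by linarith) (by linarith) hk2 hk1 hk2' hk1'
      z3 z2 z1 w2 (by linarith) hT0 hA'

end Pool.Agent.MP49888f.HX
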