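import Pool.Agent.Lib.MP_49888f_co.HX.Defs
import Pool.Agent.Lib.MP_49888f_co.PG.Main

/-! MP_49888f_co, board HX, module Strict. -/

set_option autoImplicit false

namespace Pool.Agent.MP49888f.HX

open MeasureTheory Set Pool.Agent.MP49888f.CV Pool.Agent.MP49888f.PG

theorem strict {V : Set E2} {p q r s w : E2} (h : Max V p q r s) (hR : 0 < cr (p - q) (r - s))
    (hw : w ∈ V) (hneg : cr (r - p) (w - p) < 0) :
    cr (p - q) s < cr (p - q) p ∧ cr (p - q) p < cr (p - q) r := by
  obtain ⟨a, b, ha0, ha1, hb0, hb1, eq, ep, hz⟩ := h.coord hR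
  obtain ⟨x, y, ew, hx0, hx1, hy0, hy1⟩ := hz w hw
  obtain ⟨u, hu⟩ : ∃ u : E2, u = p - q := ⟨_, rfl⟩
  obtain ⟨v, hv⟩ : ∃ v : E2, v = r - s := ⟨_, rfl⟩
  have er : r = s + v := by rw [hv]; abel
  have hm := h.2.2.2.2
  rw [← hu, ← hv] at eq ep hR ew hm
  rw [← hu]
  obtain ⟨t, ht⟩ : ∃ t : ℝ, t = (1 - a) * (x - b) - (1 - b) * (1 - y) := ⟨_, rfl⟩
  have fA : r - p = (b - 1) • u + (1 - a) • v := by rw [er, ep]; module
  have gA : w - p = (x - 1) • u + (y - a) • v := by rw [ew, ep]; module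
  have ht0 : 0 < t := by
    rw [fA, gA, cr_comb] at hneg
    have h1 : (b - 1) * (y - a) - (1 - a) * (x - 1) = -t := by rw [ht]; ring
    rw [h1] at hneg
    by_contra hcon
    push Not at hcon
    have := mul_nonneg (show (0 : ℝ) ≤ -t by linarith) hR.le
    linarith
  have hta : t ≤ a := by
    have h1 := hm w hw q h.2.1 r h.2.2.1 p h.1
    have g : w - q = x • u + (y - a) • v := by rw [ew, eq]; module
    rw [g, fA, cr_comb] at h1
    have h2 : x * (1 - a) - (y - a) * (b - 1) ≤ 1 := by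
      by_contra hcon
      push Not at hcon
      nlinarith
    have h3 : x * (1 - a) - (y - a) * (b - 1) = t + (1 - a) := by rw [ht]; ring
    linarith
  have k1 : 0 ≤ (1 - b) * (1 - y) := mul_nonneg (by linarith) (by linarith)
  have ha1' : a < 1 := by
    rcases lt_or_eq_of_le ha1 with h1 | h1
    · exact h1
    · rw [h1] at ht
      linarith
  have hap : 0 < a := by linarith
  have e1 : cr u p - cr u s = a * cr u v := by
    have e2 : p - s = (1 - b) • u + a • v := by rw [ep]; module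
    rw [← cr_sub_right, e2, cr_add_right, cr_smul_right, cr_smul_right, cr_self]
    ring
  have e3 : cr u r - cr u p = (1 - a) * cr u v := by
    rw [← cr_sub_right, fA, cr_add_right, cr_smul_right, cr_smul_right, cr_self]
    ring
  have m1 := mul_pos hap hR
  have m2 := mul_pos (show 0 < 1 - a by linarith) hR
  constructor <;> linarith

private theorem Strict_two (D : Finset E2) (hD : D.card ≤ 2) (c : E2) :
    ∃ w1 w2 : E2, ∀ z ∈ D, z = w1 ∨ z = w2 := by
  classical
  rcases Nat.lt_or_ge D.card 1 with h | h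
  · have h0 : D.card = 0 := by omega
    refine ⟨c, c, fun z hz => ?_⟩
    rw [Finset.card_eq_zero.1 h0] at hz
    exact absurd hz (Finset.notMem_empty _)
  rcases Nat.lt_or_ge D.card 2 with h2 | h2
  · obtain ⟨x, hx⟩ := Finset.card_eq_one.1 (show D.card = 1 by omega)
    refine ⟨x, x, fun z hz => ?_⟩
    rw [hx, Finset.mem_singleton] at hz
    exact Or.inl hz
  · obtain ⟨x, y, _, hxy⟩ := Finset.card_eq_two.1 (show D.card = 2 by omega)
    refine ⟨x, y, fun z hz => ?_⟩
    rw [hxy, Finset.mem_insert, Finset.mem_singleton] at hz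
    exact hz

private theorem Strict_corner (V : Finset E2) (hV : V.card ≤ 6) {p q r s w : E2}
    (h : Max (V : Set E2) p q r s) (hR : 0 < cr (p - q) (r - s)) (hw : w ∈ (V : Set E2))
    (hneg : cr (r - p) (w - p) < 0) :
    ∃ g : E2 →ₗ[ℝ] ℝ, g ≠ 0 ∧ ∃ x ∈ V, ∃ y ∈ V, ∃ t : Fin 3 → ℝ,
      ∀ z ∈ V, g y ≤ g z ∧ g z ≤ g x ∧ (z = x ∨ z = y ∨ ∃ i, g z = t i) := by
  classical
  obtain ⟨h1, h2⟩ := strict h hR hw hneg
  have hpq : cr (p - q) q = cr (p - q) p := by
    have := cr_self (p - q)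
    rw [cr_sub_right] at this
    linarith
  have npq : p ≠ q := by
    intro e
    rw [e, sub_self, cr_zero_left] at hR
    exact lt_irrefl _ hR
  have npr : p ≠ r := by
    intro e
    rw [e] at h2
    exact lt_irrefl _ h2
  have nps : p ≠ s := by
    intro e
    rw [← e] at h1
    exact lt_irrefl _ h1
  have nqr : q ≠ r := by
    intro e
    rw [← hpq, e] at h2
    exact lt_irrefl _ h2
  have nqs : q ≠ s := by
    intro e
    rw [← hpq, e] at h1
    exact lt_irrefl _ h1
  have nrs : r ≠ s := by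
    intro e
    rw [e] at h2
    exact lt_irrefl _ (h1.trans h2)
  have hcard : ({p, q, r, s} : Finset E2).card = 4 := by
    rw [Finset.card_insert_of_notMem, Finset.card_insert_of_notMem, Finset.card_insert_of_notMem,
      Finset.card_singleton]
    · simpa using nrs
    · simpa using ⟨nqr, nqs⟩
    · simpa using ⟨npq, npr, nps⟩
  have hsub : ({p, q, r, s} : Finset E2) ⊆ V := by
    intro z hzm
    simp only [Finset.mem_insert, Finset.mem_singleton] at hzm
    rcases hzm with rfl | rfl | rfl | rfl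
    · exact h.1
    · exact h.2.1
    · exact h.2.2.1
    · exact h.2.2.2.1
  have hD : (V \ {p, q, r, s}).card ≤ 2 := by
    rw [Finset.card_sdiff_of_subset hsub, hcard]
    omega
  obtain ⟨w1, w2, hww⟩ := Strict_two _ hD p
  refine ⟨crL (p - q), ?_, r, h.2.2.1, s, h.2.2.2.1,
    ![cr (p - q) p, cr (p - q) w1, cr (p - q) w2], fun z hz => ⟨?_, ?_, ?_⟩⟩
  · intro e
    have k1 : crL (p - q) r = 0 := by rw [e]; rfl
    have k2 : crL (p - q) s = 0 := by rw [e]; rfl
    rw [crL_apply] at k1 k2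
    linarith
  · rw [crL_apply, crL_apply]
    have := h.2.2.2.2 p h.1 q h.2.1 r h.2.2.1 z hz
    rw [cr_sub_right (p - q), cr_sub_right (p - q)] at this
    linarith
  · rw [crL_apply, crL_apply]
    have := h.2.2.2.2 p h.1 q h.2.1 z hz s h.2.2.2.1
    rw [cr_sub_right (p - q), cr_sub_right (p - q)] at this
    linarith
  · rw [crL_apply]
    by_cases hm : z ∈ ({p, q, r, s} : Finset E2)
    · simp only [Finset.mem_insert, Finset.mem_singleton] at hm
      rcases hm with rfl | rfl | rfl | rfl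
      · exact Or.inr (Or.inr ⟨0, rfl⟩)
      · exact Or.inr (Or.inr ⟨0, hpq⟩)
      · exact Or.inl rfl
      · exact Or.inr (Or.inl rfl)
    · rcases hww z (Finset.mem_sdiff.2 ⟨hz, hm⟩) with rfl | rfl
      · exact Or.inr (Or.inr ⟨1, rfl⟩)
      · exact Or.inr (Or.inr ⟨2, rfl⟩)

theorem three_of_six (V : Finset E2) (hV : V.card ≤ 6)
    (hint : (interior (convexHull ℝ (V : Set E2))).Nonempty) :
    CovLE (convexHull ℝ (V : Set E2)) (6 / 5) ∨
    ∃ g : E2 →ₗ[ℝ] ℝ, g ≠ 0 ∧ ∃ x ∈ V, ∃ y ∈ V, ∃ t : Fin 3 → ℝ,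
      ∀ z ∈ V, g y ≤ g z ∧ g z ≤ g x ∧ (z = x ∨ z = y ∨ ∃ i, g z = t i) := by
  have hk : IsCompact (convexHull ℝ (V : Set E2)) := V.finite_toSet.isCompact_convexHull ℝ
  have hpos : 0 < volume (convexHull ℝ (V : Set E2)) :=
    lt_of_lt_of_le (isOpen_interior.measure_pos volume hint) (measure_mono interior_subset)
  have hne : V.Nonempty := by
    rw [Finset.nonempty_iff_ne_empty]
    rintro rfl
    simp at hint
  obtain ⟨p, q, r, s, h⟩ := exists_max V hne
  have hR := max_pos h hint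
  have h2 := h.rot
  have h3 := h2.rot
  have h4 := h3.rot
  have hR2 := max_pos h2 hint
  have hR3 := max_pos h3 hint
  have hR4 := max_pos h4 hint
  by_cases hA : ∀ z ∈ (V : Set E2), 0 ≤ cr (r - p) (z - p)
  · by_cases hB : ∀ z ∈ (V : Set E2), 0 ≤ cr (q - r) (z - r)
    · by_cases hC : ∀ z ∈ (V : Set E2), 0 ≤ cr (s - q) (z - q)
      · by_cases hD : ∀ z ∈ (V : Set E2), 0 ≤ cr (p - s) (z - s)
        · exact Or.inl (quad_case (V : Set E2) _ rfl hk hpos h hR hA hB hC hD)
        · push Not at hD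
          obtain ⟨w, hw, hn⟩ := hD
          exact Or.inr (Strict_corner V hV h4 hR4 hw hn)
      · push Not at hC
        obtain ⟨w, hw, hn⟩ := hC
        exact Or.inr (Strict_corner V hV h3 hR3 hw hn)
    · push Not at hB
      obtain ⟨w, hw, hn⟩ := hB
      exact Or.inr (Strict_corner V hV h2 hR2 hw hn)
  · push Not at hA
    obtain ⟨w, hw, hn⟩ := hA
    exact Or.inr (Strict_corner V hV h hR hw hn)

end Pool.Agent.MP49888f.HX
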