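import Pool.Agent.Lib.MP_49888f_co.HX.Gap
import Pool.Agent.Lib.MP_49888f_co.HX.GapLen
import Pool.Agent.Lib.MP_49888f_co.HX.Area
import Pool.Agent.Lib.MP_49888f_co.HX.Bounds
import Pool.Agent.Lib.MP_49888f_co.HX.Nodes
import Pool.Agent.Lib.MP_49888f_co.HX.Ext
import Pool.Agent.Lib.MP_49888f_co.HX.Strict

/-! MP_49888f_co, polygons with vertices on three parallel lines and two extreme vertices: main theorem (helper47). -/

set_option autoImplicit false

namespace Pool.Agent.MP49888f.HX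

open MeasureTheory Set Pool.Agent.MP49888f.CV

/-- sorting and clamping three numbers -/
theorem sort3 (m0 m1 : ℝ) (hm : m0 ≤ m1) (t : Fin 3 → ℝ) :
    ∃ y1 y2 y3 : ℝ, m0 ≤ y1 ∧ y1 ≤ y2 ∧ y2 ≤ y3 ∧ y3 ≤ m1 ∧
      ∀ i, m0 ≤ t i → t i ≤ m1 → t i = y1 ∨ t i = y2 ∨ t i = y3 := by
  obtain ⟨c, hc⟩ : ∃ c : Fin 3 → ℝ, ∀ i, c i = max m0 (min (t i) m1) := ⟨_, fun _ => rfl⟩
  have hlo : ∀ i, m0 ≤ c i := fun i => hc i ▸ le_max_left _ _
  have hhi : ∀ i, c i ≤ m1 := fun i => by
    rw [hc i]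
    exact max_le hm (min_le_right _ _)
  have heq : ∀ i, m0 ≤ t i → t i ≤ m1 → t i = c i := by
    intro i h1 h2
    rw [hc i, min_eq_left h2, max_eq_right h1]
  have key : ∀ a b d : ℝ, ∃ y1 y2 y3 : ℝ, y1 ≤ y2 ∧ y2 ≤ y3 ∧
      (a = y1 ∨ a = y2 ∨ a = y3) ∧ (b = y1 ∨ b = y2 ∨ b = y3) ∧ (d = y1 ∨ d = y2 ∨ d = y3) ∧
      (y1 = a ∨ y1 = b ∨ y1 = d) ∧ (y3 = a ∨ y3 = b ∨ y3 = d) := by
    intro a b d
    rcases le_total a b with h1 | h1 <;> rcases le_total b d with h2 | h2 <;>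
      rcases le_total a d with h3 | h3
    · exact ⟨a, b, d, h1, h2, by simp, by simp, by simp, by simp, by simp⟩
    · exact ⟨a, b, d, h1, h2, by simp, by simp, by simp, by simp, by simp⟩
    · exact ⟨a, d, b, h3, h2, by simp, by simp, by simp, by simp, by simp⟩
    · exact ⟨d, a, b, h3, h1, by simp, by simp, by simp, by simp, by simp⟩
    · exact ⟨b, a, d, h1, h3, by simp, by simp, by simp, by simp, by simp⟩
    · exact ⟨b, d, a, h2, h3, by simp, by simp, by simp, by simp, by simp⟩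
    · exact ⟨d, b, a, h2, h1, by simp, by simp, by simp, by simp, by simp⟩
    · exact ⟨d, b, a, h2, h1, by simp, by simp, by simp, by simp, by simp⟩
  obtain ⟨y1, y2, y3, h12, h23, ka, kb, kd, k1, k3⟩ := key (c 0) (c 1) (c 2)
  refine ⟨y1, y2, y3, ?_, h12, h23, ?_, ?_⟩
  · rcases k1 with h | h | h <;> rw [h] <;> exact hlo _
  · rcases k3 with h | h | h <;> rw [h] <;> exact hhi _
  · intro i h1 h2
    rw [heq i h1 h2]
    fin_cases i
    · exact ka
    · exact kb
    · exact kd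

theorem main_frame (V : Finset E2) (u w : E2) (huw : cr u w = 1)
    (hint : (interior (convexHull ℝ (V : Set E2))).Nonempty)
    (x y : E2) (hx : x ∈ V) (hy : y ∈ V) (t : Fin 3 → ℝ)
    (h : ∀ z ∈ V, cr u y ≤ cr u z ∧ cr u z ≤ cr u x ∧ (z = x ∨ z = y ∨ ∃ i, cr u z = t i)) :
    CovLE (convexHull ℝ (V : Set E2)) (6 / 5) := by
  by_contra hno
  obtain ⟨C, hCdef⟩ : ∃ C : Set E2, C = convexHull ℝ (V : Set E2) := ⟨_, rfl⟩
  have hk : IsCompact C := hCdef ▸ V.finite_toSet.isCompact_convexHull ℝ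
  have hC : Convex ℝ C := hCdef ▸ convex_convexHull ℝ (V : Set E2)
  have hVC : (V : Set E2) ⊆ C := hCdef ▸ subset_convexHull ℝ (V : Set E2)
  rw [← hCdef] at hint hno
  have hpos : 0 < volume C :=
    lt_of_lt_of_le (isOpen_interior.measure_pos volume hint) (measure_mono interior_subset)
  obtain ⟨S, hS⟩ : ∃ S : Set (ℝ × ℝ), S = fr u w ⁻¹' C := ⟨_, rfl⟩
  have hcS : Convex ℝ S := hS ▸ convex_fr_preimage u w C hC
  have hkS : IsCompact S := hS ▸ isCompact_fr_preimage u w huw C hk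
  have hvol : volume S = volume C := by rw [hS]; exact volume_fr_preimage u w huw C
  have hK : 0 < (volume C).toReal := ENNReal.toReal_pos hpos.ne' hk.measure_lt_top.ne
  obtain ⟨m0, hm0⟩ : ∃ m0, m0 = cr u y := ⟨_, rfl⟩
  obtain ⟨m1, hm1⟩ : ∃ m1, m1 = cr u x := ⟨_, rfl⟩
  have hcrfr : ∀ p : ℝ × ℝ, cr u (fr u w p) = p.2 := by
    intro p
    unfold fr
    rw [cr_add_right, cr_smul_right, cr_smul_right, cr_self, huw]
    ring
  have hmemS : ∀ z ∈ C, (cr z w, cr u z) ∈ S := by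
    intro z hz
    rw [hS]
    show fr u w (cr z w, cr u z) ∈ C
    rwa [fr_coord u w huw]
  -- all heights
  have hCh : ∀ z ∈ C, m0 ≤ cr u z ∧ cr u z ≤ m1 := by
    have h1 : C ⊆ {z | m0 ≤ cr u z ∧ cr u z ≤ m1} := by
      rw [hCdef]
      refine convexHull_min (fun z hz => ?_) ?_
      · have := h z hz
        exact ⟨hm0 ▸ this.1, hm1 ▸ this.2.1⟩
      · intro z hz z' hz' a b ha hb hab
        have e : cr u (a • z + b • z') = a * cr u z + b * cr u z' := by
          rw [cr_add_right, cr_smul_right, cr_smul_right]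
        have hz1 : m0 ≤ cr u z ∧ cr u z ≤ m1 := hz
        have hz1' : m0 ≤ cr u z' ∧ cr u z' ≤ m1 := hz'
        show m0 ≤ cr u (a • z + b • z') ∧ cr u (a • z + b • z') ≤ m1
        rw [e]
        have e0 : m0 = a * m0 + b * m0 := by rw [← add_mul, hab, one_mul]
        have e1 : m1 = a * m1 + b * m1 := by rw [← add_mul, hab, one_mul]
        constructor
        · rw [e0]
          exact add_le_add (mul_le_mul_of_nonneg_left hz1.1 ha) (mul_le_mul_of_nonneg_left hz1'.1 hb)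
        · rw [e1]
          exact add_le_add (mul_le_mul_of_nonneg_left hz1.2 ha) (mul_le_mul_of_nonneg_left hz1'.2 hb)
    exact h1
  have hS01 : ∀ p ∈ S, m0 ≤ p.2 ∧ p.2 ≤ m1 := by
    intro p hp
    rw [hS] at hp
    have := hCh _ hp
    rwa [hcrfr] at this
  have hY0 : ∀ z ∈ C, cr u z ∈ Yset S 0 := fun z hz =>
    ⟨cr z w, hmemS z hz, by rw [add_zero]; exact hmemS z hz⟩
  have mY0 : m0 ∈ Yset S 0 := hm0 ▸ hY0 y (hVC hy)
  have mY1 : m1 ∈ Yset S 0 := hm1 ▸ hY0 x (hVC hx)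
  obtain ⟨L, hL, hneL, hmax, hWpos, -⟩ := core S hcS hkS (by rw [hvol]; exact hpos)
  have hm01 : m0 < m1 := by
    by_contra hcon
    push Not at hcon
    have h1 : Yset S 0 ⊆ {m0} := by
      rintro e ⟨a, ha, -⟩
      have := hS01 _ ha
      show e = m0
      exact le_antisymm (this.2.trans hcon) this.1
    have h2 : volume (Yset S 0) ≤ volume ({m0} : Set ℝ) := measure_mono h1
    rw [Real.volume_singleton] at h2
    have h3 : volume (Yset S 0) = 0 := le_antisymm h2 bot_le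
    rw [h3, ENNReal.toReal_zero] at hWpos
    exact lt_irrefl _ hWpos
  have hYI : ∀ e, m0 ≤ e → e ≤ m1 → e ∈ Yset S 0 := by
    intro e h1 h2
    exact (Yset_convex S hcS 0).ordConnected.out mY0 mY1 ⟨h1, h2⟩
  -- the nodes
  obtain ⟨y1, y2, y3, h01, h12, h23, h34, hti⟩ := sort3 m0 m1 hm01.le t
  have hnode : ∀ z ∈ (V : Set E2), z = x ∨ z = y ∨ cr u z = y1 ∨ cr u z = y2 ∨ cr u z = y3 := by
    intro z hz
    obtain ⟨k1, k2, k3⟩ := h z hz
    rcases k3 with k | k | ⟨i, k⟩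
    · exact Or.inl k
    · exact Or.inr (Or.inl k)
    · have := hti i (by rw [← k, hm0]; exact k1) (by rw [← k, hm1]; exact k2)
      rw [← k] at this
      exact Or.inr (Or.inr this)
  have gap : ∀ a b, a < b → (a = m0 ∨ a = y1 ∨ a = y2 ∨ a = y3) →
      (m0 ≤ a ∧ b ≤ m1 ∧ (y1 ≤ a ∨ b ≤ y1) ∧ (y2 ≤ a ∨ b ≤ y2) ∧ (y3 ≤ a ∨ b ≤ y3)) →
      Gap S a b := by
    intro a b hab _ hh
    obtain ⟨k0, k1, k2, k3, k4⟩ := hh
    rw [hS, hCdef]
    refine gap_hull (V : Set E2) u w huw a b hab fun z hz => ?_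
    rcases hnode z hz with k | k | k | k | k
    · right
      rw [k, ← hm1]
      exact k1
    · left
      rw [k, ← hm0]
      exact k0
    · rw [k]; exact k2
    · rw [k]; exact k3
    · rw [k]; exact k4
  obtain ⟨c1, l1⟩ := exists_len S hcS hkS y1 (hYI _ h01 ((h12.trans h23).trans h34))
  obtain ⟨c2, l2⟩ := exists_len S hcS hkS y2 (hYI _ (h01.trans h12) (h23.trans h34))
  obtain ⟨c3, l3⟩ := exists_len S hcS hkS y3 (hYI _ ((h01.trans h12).trans h23) h34)
  -- the two ends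
  have end0 : m0 < y1 → ∀ l, m0 ∈ Yset S l → l ≤ 0 := by
    intro hlt l hl
    obtain ⟨a, ha, hb⟩ := hl
    rw [hS] at ha hb
    have hext := ext_point (V : Set E2)
      { toFun := cr u, map_add' := cr_add_right u, map_smul' := fun c x => cr_smul_right c u x } y
      y1 (by show cr u y < y1; rw [← hm0]; exact hlt) (by
        intro z hz
        rcases hnode z hz with k | k | k | k | k
        · right
          show y1 ≤ cr u z
          rw [k, ← hm1]
          exact (h12.trans h23).trans h34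
        · exact Or.inl k
        · exact Or.inr (le_of_eq k.symm)
        · right
          show y1 ≤ cr u z
          rw [k]; exact h12
        · right
          show y1 ≤ cr u z
          rw [k]; exact h12.trans h23)
    have ha' : fr u w (a, m0) ∈ convexHull ℝ (V : Set E2) := hCdef ▸ ha
    have hb' : fr u w (a + l, m0) ∈ convexHull ℝ (V : Set E2) := hCdef ▸ hb
    have e1 := hext _ ha' (by show cr u (fr u w (a, m0)) ≤ cr u y; rw [hcrfr, ← hm0])
    have e2 := hext _ hb' (by show cr u (fr u w (a + l, m0)) ≤ cr u y; rw [hcrfr, ← hm0])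
    have e3 := fr_inj u w (by rw [huw]; norm_num) (e1.trans e2.symm)
    have e4 : a = a + l := congrArg Prod.fst e3
    linarith
  have end1 : y3 < m1 → ∀ l, m1 ∈ Yset S l → l ≤ 0 := by
    intro hlt l hl
    obtain ⟨a, ha, hb⟩ := hl
    rw [hS] at ha hb
    have hext := ext_point (V : Set E2)
      { toFun := fun z => -cr u z
        map_add' := fun z z' => by rw [cr_add_right]; ring
        map_smul' := fun c z => by
          rw [cr_smul_right, RingHom.id_apply, smul_eq_mul]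
          ring } x
      (-y3) (by show -cr u x < -y3; rw [← hm1]; linarith) (by
        intro z hz
        rcases hnode z hz with k | k | k | k | k
        · exact Or.inl k
        · right
          show -y3 ≤ -cr u z
          rw [k, ← hm0]
          linarith
        · right
          show -y3 ≤ -cr u z
          rw [k]; linarith
        · right
          show -y3 ≤ -cr u z
          rw [k]; linarith
        · right
          show -y3 ≤ -cr u z
          rw [k])
    have ha' : fr u w (a, m1) ∈ convexHull ℝ (V : Set E2) := hCdef ▸ ha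
    have hb' : fr u w (a + l, m1) ∈ convexHull ℝ (V : Set E2) := hCdef ▸ hb
    have e1 := hext _ ha' (by show -cr u (fr u w (a, m1)) ≤ -cr u x; rw [hcrfr, ← hm1])
    have e2 := hext _ hb' (by show -cr u (fr u w (a + l, m1)) ≤ -cr u x; rw [hcrfr, ← hm1])
    have e3 := fr_inj u w (by rw [huw]; norm_num) (e1.trans e2.symm)
    have e4 : a = a + l := congrArg Prod.fst e3
    linarith
  have b1 : ∀ e l, m0 < e → e < y1 → e ∈ Yset S l → (y1 - m0) * l ≤ (y1 - e) * 0 + (e - m0) * c1 := by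
    intro e l k1 k2 k3
    exact gap_len S (gap m0 y1 (k1.trans k2) (Or.inl rfl)
      ⟨le_rfl, (h12.trans h23).trans h34, Or.inr le_rfl, Or.inr h12, Or.inr (h12.trans h23)⟩)
      (end0 (k1.trans k2)) l1.2.2 k1 k2 k3
  have b2 : ∀ e l, y1 < e → e < y2 → e ∈ Yset S l → (y2 - y1) * l ≤ (y2 - e) * c1 + (e - y1) * c2 := by
    intro e l k1 k2 k3
    exact gap_len S (gap y1 y2 (k1.trans k2) (Or.inr (Or.inl rfl))
      ⟨h01, h23.trans h34, Or.inl le_rfl, Or.inr le_rfl, Or.inr h23⟩)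
      l1.2.2 l2.2.2 k1 k2 k3
  have b3 : ∀ e l, y2 < e → e < y3 → e ∈ Yset S l → (y3 - y2) * l ≤ (y3 - e) * c2 + (e - y2) * c3 := by
    intro e l k1 k2 k3
    exact gap_len S (gap y2 y3 (k1.trans k2) (Or.inr (Or.inr (Or.inl rfl)))
      ⟨h01.trans h12, h34, Or.inl h12, Or.inl le_rfl, Or.inr le_rfl⟩)
      l2.2.2 l3.2.2 k1 k2 k3
  have b4 : ∀ e l, y3 < e → e < m1 → e ∈ Yset S l → (m1 - y3) * l ≤ (m1 - e) * c3 + (e - y3) * 0 := by
    intro e l k1 k2 k3
    exact gap_len S (gap y3 m1 (k1.trans k2) (Or.inr (Or.inr (Or.inr rfl)))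
      ⟨(h01.trans h12).trans h23, le_rfl, Or.inl (h12.trans h23), Or.inl h23, Or.inl le_rfl⟩)
      l3.2.2 (end1 (k1.trans k2)) k1 k2 k3
  have harea := area_nodes S hcS hkS m0 y1 y2 y3 m1 c1 c2 c3 h01 h12 h23 h34 l1.1 l2.1 l3.1 hS01
    b1 b2 b3 b4
  rw [hvol] at harea
  -- the longest chord
  have hcL : ∀ e c, e ∈ Yset S c → c ≤ L := by
    intro e c hc
    by_contra hcon
    push Not at hcon
    rw [hmax c hcon] at hc
    exact hc
  have hone : c1 = L ∨ c2 = L ∨ c3 = L := by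
    by_contra hcon
    push Not at hcon
    obtain ⟨n1, n2, n3⟩ := hcon
    have q1 : c1 < L := lt_of_le_of_ne (hcL _ _ l1.2.1) n1
    have q2 : c2 < L := lt_of_le_of_ne (hcL _ _ l2.2.1) n2
    have q3 : c3 < L := lt_of_le_of_ne (hcL _ _ l3.2.1) n3
    obtain ⟨e, he⟩ := hneL
    obtain ⟨r0, r1⟩ : m0 ≤ e ∧ e ≤ m1 := by
      obtain ⟨a, ha, -⟩ := he
      exact hS01 _ ha
    have d1 : e ≠ y1 := by
      rintro rfl
      exact absurd (l1.2.2 _ he) (not_le.mpr q1)
    have d2 : e ≠ y2 := by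
      rintro rfl
      exact absurd (l2.2.2 _ he) (not_le.mpr q2)
    have d3 : e ≠ y3 := by
      rintro rfl
      exact absurd (l3.2.2 _ he) (not_le.mpr q3)
    rcases lt_or_gt_of_ne d1 with g1 | g1
    · rcases r0.lt_or_eq with g0 | g0
      · have := b1 e L g0 g1 he
        have j1 := mul_lt_mul_of_pos_left q1 (sub_pos.mpr g0)
        have j2 := mul_pos (sub_pos.mpr g1) hL
        nlinarith
      · rw [← g0] at he g1
        exact absurd (end0 g1 _ he) (not_le.mpr hL)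
    rcases lt_or_gt_of_ne d2 with g2 | g2
    · have := b2 e L g1 g2 he
      have j1 := mul_lt_mul_of_pos_left q1 (sub_pos.mpr g2)
      have j2 := mul_lt_mul_of_pos_left q2 (sub_pos.mpr g1)
      nlinarith
    rcases lt_or_gt_of_ne d3 with g3 | g3
    · have := b3 e L g2 g3 he
      have j1 := mul_lt_mul_of_pos_left q2 (sub_pos.mpr g3)
      have j2 := mul_lt_mul_of_pos_left q3 (sub_pos.mpr g2)
      nlinarith
    · rcases r1.lt_or_eq with g4 | g4
      · have := b4 e L g3 g4 he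
        have j1 := mul_lt_mul_of_pos_left q3 (sub_pos.mpr g4)
        have j2 := mul_pos (sub_pos.mpr g3) hL
        nlinarith
      · rw [g4] at he g3
        exact absurd (end1 g3 _ he) (not_le.mpr hL)
  -- the bounds
  have hb := bounds C hC hk hpos u w huw L m0 m1 hL hm01 (hS ▸ mY0) (hS ▸ mY1) (hS ▸ hS01)
    (hS ▸ hneL) (hS ▸ hmax) hno
  obtain ⟨hbig, hadm⟩ := hb
  rw [← hS] at hadm
  obtain ⟨W, hW⟩ : ∃ W, W = m1 - m0 := ⟨_, rfl⟩
  have hW0 : 0 < W := by rw [hW]; linarith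
  rw [← hW] at hbig hadm
  obtain ⟨K, hKdef⟩ : ∃ K, K = (volume C).toReal := ⟨_, rfl⟩
  rw [← hKdef] at hbig hadm harea hK
  have hLW : 0 < L * W := mul_pos hL hW0
  refine nodes_norm (fun s e => m0 + e * W ∈ Yset S (s * L)) ?_ ?_ ?_
    (e1 := (y1 - m0) / W) (e2 := (y2 - m0) / W) (e3 := (y3 - m0) / W)
    (k1 := c1 / L) (k2 := c2 / L) (k3 := c3 / L) (T0 := 2 * K / (L * W))
    (div_nonneg (by linarith) hW0.le) (div_le_div_of_nonneg_right (by linarith) hW0.le)
    (div_le_div_of_nonneg_right (by linarith) hW0.le) ?_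
    (div_nonneg l1.1 hL.le) (div_nonneg l2.1 hL.le) (div_nonneg l3.1 hL.le)
    ((div_le_one hL).mpr (hcL _ _ l1.2.1)) ((div_le_one hL).mpr (hcL _ _ l2.2.1))
    ((div_le_one hL).mpr (hcL _ _ l3.2.1)) ?_ ?_ ?_ ?_ ?_ ?_ ?_ ?_ ?_ ?_
  · intro s1 s2 e1 e2 a b hs1 hs2 ha hb hab
    have := Yset_mix S hcS hs1 hs2 ha hb hab
    have e3 : a * (m0 + e1 * W) + b * (m0 + e2 * W) = m0 + (a * e1 + b * e2) * W := by
      have : a = 1 - b := by linarith
      rw [this]
      ring
    have e4 : a * (s1 * L) + b * (s2 * L) = (a * s1 + b * s2) * L := by ring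
    rw [e3, e4] at this
    exact this
  · show m0 + 0 * W ∈ Yset S (0 * L)
    rw [zero_mul, zero_mul, add_zero]
    exact mY0
  · show m0 + 1 * W ∈ Yset S (0 * L)
    rw [zero_mul, one_mul, hW, add_sub_cancel]
    exact mY1
  · rw [div_le_one hW0, hW]
    linarith
  · show m0 + (y1 - m0) / W * W ∈ Yset S (c1 / L * L)
    rw [div_mul_cancel₀ _ hW0.ne', div_mul_cancel₀ _ hL.ne', add_sub_cancel]
    exact l1.2.1
  · show m0 + (y2 - m0) / W * W ∈ Yset S (c2 / L * L)
    rw [div_mul_cancel₀ _ hW0.ne', div_mul_cancel₀ _ hL.ne', add_sub_cancel]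
    exact l2.2.1
  · show m0 + (y3 - m0) / W * W ∈ Yset S (c3 / L * L)
    rw [div_mul_cancel₀ _ hW0.ne', div_mul_cancel₀ _ hL.ne', add_sub_cancel]
    exact l3.2.1
  · intro s hs
    have hs' : m0 + (y1 - m0) / W * W ∈ Yset S (s * L) := hs
    rw [div_mul_cancel₀ _ hW0.ne', add_sub_cancel] at hs'
    rw [le_div_iff₀ hL]
    exact l1.2.2 _ hs'
  · intro s hs
    have hs' : m0 + (y2 - m0) / W * W ∈ Yset S (s * L) := hs
    rw [div_mul_cancel₀ _ hW0.ne', add_sub_cancel] at hs'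
    rw [le_div_iff₀ hL]
    exact l2.2.2 _ hs'
  · intro s hs
    have hs' : m0 + (y3 - m0) / W * W ∈ Yset S (s * L) := hs
    rw [div_mul_cancel₀ _ hW0.ne', add_sub_cancel] at hs'
    rw [le_div_iff₀ hL]
    exact l3.2.2 _ hs'
  · rcases hone with h' | h' | h'
    · left
      rw [h', div_self hL.ne']
    · right; left
      rw [h', div_self hL.ne']
    · right; right
      rw [h', div_self hL.ne']
  · rw [div_le_iff₀ hLW]
    have e : (c1 / L * ((y2 - m0) / W) + c2 / L * ((y3 - m0) / W - (y1 - m0) / W) +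
        c3 / L * (1 - (y2 - m0) / W)) * (L * W) =
        c1 * (y2 - m0) + c2 * (y3 - y1) + c3 * (m0 + W - y2) := by
      field_simp
      ring
    rw [e]
    have e2 : m0 + W = m1 := by rw [hW]; ring
    rw [e2]
    exact harea
  · rw [le_div_iff₀ hLW]
    linarith
  · intro s e g hs0 hs1 hg0 k1 k2
    have hsL : s * L ≤ L := by
      have := mul_le_mul_of_nonneg_right hs1 hL.le
      linarith
    have := hadm (s * L) (g * W) (mul_nonneg hs0 hL.le) hsL (mul_nonneg hg0 hW0.le)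
      ⟨m0 + e * W, k1, by
        have e1 : m0 + e * W + g * W = m0 + (e + g) * W := by ring
        rw [e1]
        exact k2⟩
    obtain ⟨j1, j2⟩ := this
    have e5 : 5 * (2 * K / (L * W)) = 10 * K / (L * W) := by ring
    rw [e5]
    constructor
    · rw [lt_div_iff₀ hLW]
      have : 6 * (s * (1 + g)) * (L * W) = 2 * (3 * (s * L * (W + g * W))) := by ring
      rw [this]
      linarith
    · rw [lt_div_iff₀ hLW]
      have : 6 * ((1 + s) * g) * (L * W) = 2 * (3 * ((s * L + L) * (g * W))) := by ring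
      rw [this]
      linarith

theorem main_three (V : Finset E2) (hint : (interior (convexHull ℝ (V : Set E2))).Nonempty)
    (h : ∃ g : E2 →ₗ[ℝ] ℝ, g ≠ 0 ∧ ∃ x ∈ V, ∃ y ∈ V, ∃ t : Fin 3 → ℝ,
      ∀ z ∈ V, g y ≤ g z ∧ g z ≤ g x ∧ (z = x ∨ z = y ∨ ∃ i, g z = t i)) :
    CovLE (convexHull ℝ (V : Set E2)) (6 / 5) := by
  obtain ⟨g, hg, x, hx, y, hy, t, hz⟩ := h
  obtain ⟨a, ha⟩ : ∃ a : ℝ, a = g (EuclideanSpace.single 0 1) := ⟨_, rfl⟩
  obtain ⟨b, hb⟩ : ∃ b : ℝ, b = g (EuclideanSpace.single 1 1) := ⟨_, rfl⟩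
  have hgz : ∀ z : E2, g z = z 0 * a + z 1 * b := by
    intro z
    have e : z = z 0 • (EuclideanSpace.single 0 1 : E2) + z 1 • (EuclideanSpace.single 1 1 : E2) := by
      ext i
      fin_cases i <;> simp
    conv_lhs => rw [e]
    rw [map_add, map_smul, map_smul, ha, hb, smul_eq_mul, smul_eq_mul]
  have hne : a ^ 2 + b ^ 2 ≠ 0 := by
    intro h0
    have ha0 : a = 0 := by nlinarith [sq_nonneg a, sq_nonneg b]
    have hb0 : b = 0 := by nlinarith [sq_nonneg a, sq_nonneg b]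
    apply hg
    ext z
    rw [hgz, ha0, hb0]
    simp
  obtain ⟨u, hu⟩ : ∃ u : E2, u = !₂[b, -a] := ⟨_, rfl⟩
  obtain ⟨w, hw⟩ : ∃ w : E2, w = (1 / (a ^ 2 + b ^ 2)) • !₂[a, b] := ⟨_, rfl⟩
  have hcr : ∀ z : E2, cr u z = g z := by
    intro z
    rw [hgz, hu]
    simp [cr]
    ring
  have huw : cr u w = 1 := by
    rw [hcr, hw, map_smul, hgz]
    simp
    field_simp
  exact main_frame V u w huw hint x y hx hy t (by simpa only [hcr] using hz)

/-- every convex polygon with at most six vertices, and every one with two extreme vertices and the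
others on three lines -/
theorem main (V : Finset E2) (hint : (interior (convexHull ℝ (V : Set E2))).Nonempty)
    (h : V.card ≤ 6 ∨ ∃ g : E2 →ₗ[ℝ] ℝ, g ≠ 0 ∧ ∃ x ∈ V, ∃ y ∈ V, ∃ t : Fin 3 → ℝ,
      ∀ z ∈ V, g y ≤ g z ∧ g z ≤ g x ∧ (z = x ∨ z = y ∨ ∃ i, g z = t i)) :
    CovLE (convexHull ℝ (V : Set E2)) (6 / 5) := by
  rcases h with h | h
  · rcases three_of_six V h hint with k | k
    · exact k
    · exact main_three V hint k
  · exact main_three V hint h

end Pool.Agent.MP49888f.HX
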