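import Pool.Agent.Lib.MP_49888f_co.CV.Defs

/-! MP_49888f_co: from a disc `P` to a larger disc `C` (helper47). -/

set_option autoImplicit false

namespace Pool.Agent.MP49888f.HX

open MeasureTheory Set Pool.Agent.MP49888f.CV

theorem scale (P C : Set E2) (hPC : P ⊆ C) (hP : 0 < volume P) (hC : volume C ≠ ⊤) {θ : ℝ}
    (hθ : 0 ≤ θ) (h : CovLE P θ) :
    CovLE C (θ * (volume C).toReal / (volume P).toReal) := by
  have hPf : volume P ≠ ⊤ := ne_top_of_le_ne_top hC (measure_mono hPC)
  have hCp : 0 < volume C := lt_of_lt_of_le hP (measure_mono hPC)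
  have hp : 0 < (volume P).toReal := ENNReal.toReal_pos hP.ne' hPf
  have hc : 0 < (volume C).toReal := ENNReal.toReal_pos hCp.ne' hC
  intro ε hε
  obtain ⟨f, hf, hr⟩ := h (ε * (volume P).toReal / (volume C).toReal) (by positivity)
  refine ⟨f, ?_, fun R => ?_⟩
  · rw [Set.eq_univ_iff_forall] at hf ⊢
    intro z
    obtain ⟨i, hi⟩ := Set.mem_iUnion.mp (hf z)
    exact Set.mem_iUnion.mpr ⟨i, Set.image_mono hPC hi⟩
  · obtain ⟨r, hRr, hs⟩ := hr R
    refine ⟨r, hRr, ?_⟩
    have h1 : ∀ i : ℕ, Set.indicator {j : ℕ | (f j) '' C ⊆ Metric.ball (0 : E2) r}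
        (fun _ : ℕ => volume C) i ≤ (volume C / volume P) *
        Set.indicator {j : ℕ | (f j) '' P ⊆ Metric.ball (0 : E2) r} (fun _ : ℕ => volume P) i := by
      intro i
      by_cases hi : (f i) '' C ⊆ Metric.ball (0 : E2) r
      · have hi' : (f i) '' P ⊆ Metric.ball (0 : E2) r := (Set.image_mono hPC).trans hi
        rw [Set.indicator_of_mem (show i ∈ {j : ℕ | (f j) '' C ⊆ Metric.ball (0 : E2) r} from hi),
          Set.indicator_of_mem (show i ∈ {j : ℕ | (f j) '' P ⊆ Metric.ball (0 : E2) r} from hi')]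
        exact (ENNReal.div_mul_cancel hP.ne' hPf).ge
      · rw [Set.indicator_of_notMem (show i ∉ {j : ℕ | (f j) '' C ⊆ Metric.ball (0 : E2) r} from hi)]
        exact bot_le
    refine (ENNReal.tsum_le_tsum h1).trans ?_
    rw [ENNReal.tsum_mul_left]
    refine (mul_le_mul_right hs _).trans ?_
    rw [← mul_assoc]
    refine mul_le_mul_left ?_ _
    have h2 : volume C / volume P = ENNReal.ofReal ((volume C).toReal / (volume P).toReal) := by
      rw [ENNReal.ofReal_div_of_pos hp, ENNReal.ofReal_toReal hC, ENNReal.ofReal_toReal hPf]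
    rw [h2, ← ENNReal.ofReal_mul (by positivity)]
    apply ENNReal.ofReal_le_ofReal
    apply le_of_eq
    field_simp

end Pool.Agent.MP49888f.HX
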