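import Pool.Agent.Lib.MP_49888f_co.HX.Alg
import Pool.Agent.Lib.MP_49888f_co.HX.CoreII

/-! MP_49888f_co, polygons with vertices on three parallel lines and two extreme vertices: the extremal problem (helper47). -/

set_option autoImplicit false

namespace Pool.Agent.MP49888f.HX

private theorem caseB {s1 g1 s2 g2 T N : ℝ} (h1 : 0 ≤ s1) (h2 : s1 ≤ s2) (h3 : s2 ≤ 1)
    (h5 : 0 ≤ g1) (h6 : g1 ≤ 1) (hN : N = g1 * s2 - g2 * s1) (hT : T = s1 + g2 + N)
    (hd : s2 - s1 < N) (he : g1 - g2 < N) (hd0 : 0 < s2 - s1) (he0 : 0 < g1 - g2)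
    (a : 6 * ((1 + s1) * g1) < 5 * T)
    (b : 6 * ((s2 - s1) + N) ^ 2 < 5 * T * (4 * (g1 - g2) * (s2 - s1))) : False := by
  obtain ⟨d, hdd⟩ : ∃ d, d = s2 - s1 := ⟨_, rfl⟩
  obtain ⟨e, hee⟩ : ∃ e, e = g1 - g2 := ⟨_, rfl⟩
  rw [← hdd] at hd hd0 b
  rw [← hee] at he he0 b
  have k1 : g1 * d = N - e * s1 := by rw [hN, hdd, hee]; ring
  have k2 : g2 * d = N - e * s2 := by rw [hN, hdd, hee]; ring
  have e1 : N / d - e / d * s1 = g1 := by
    field_simp
    linarith
  have e2 : N / d - e / d * s2 = g2 := by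
    field_simp
    linarith
  have hK : 1 ≤ N / d := (one_le_div hd0).mpr hd.le
  have hL : e / d ≤ N / d := div_le_div_of_nonneg_right he.le hd0.le
  have hk : 0 < e / d := div_pos he0 hd0
  obtain ⟨m, hm⟩ : ∃ m, m = max (g1 * (1 + s1)) ((d + N) ^ 2 / (4 * e * d)) := ⟨_, rfl⟩
  have hm1 : g1 * (1 + s1) ≤ m := hm ▸ le_max_left _ _
  have hm2 : (d + N) ^ 2 / (4 * e * d) ≤ m := hm ▸ le_max_right _ _
  have hmT : 6 * m < 5 * T := by
    rw [hm]
    rcases le_total (g1 * (1 + s1)) ((d + N) ^ 2 / (4 * e * d)) with h | h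
    · rw [max_eq_right h]
      have : 6 * ((d + N) ^ 2 / (4 * e * d)) = 6 * (d + N) ^ 2 / (4 * e * d) := by ring
      rw [this, div_lt_iff₀ (by positivity)]
      linarith
    · rw [max_eq_left h]
      linarith
  have hc := coreB (K := N / d) (k := e / d) (s := s1) (m := m) hk hK hL h1 (h2.trans h3)
    (by rw [e1]; exact h6) (by rw [e1]; exact h5) (by rw [e1]; exact hm1)
    (by
      have e3 : (1 + N / d) ^ 2 = (d + N) ^ 2 / d ^ 2 := by field_simp
      rw [div_le_iff₀ (by positivity)] at hm2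
      rw [e3, div_le_iff₀ (by positivity)]
      have e4 : 4 * (e / d) * m * d ^ 2 = m * (4 * e * d) := by field_simp
      rw [e4]
      exact hm2)
  have hTle : T ≤ 2 * (N / d) - e / d - (N / d - 1) * s1 := by
    have e5 : N = N / d * d := by field_simp
    have e6 : T = N / d - (N / d - 1) * s1 + (N / d - e / d) * s2 := by
      rw [hT, ← e2]
      generalize N / d = K at *
      rw [e5, hdd]
      ring
    rw [e6]
    have := mul_le_mul_of_nonneg_left h3 (sub_nonneg.mpr hL)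
    linarith
  linarith

private theorem caseIII {s1 g1 s2 g2 T N : ℝ} (h1 : 0 ≤ s1) (h2 : s1 ≤ s2) (h3 : s2 ≤ 1)
    (h4 : 0 ≤ g2) (h5 : g2 ≤ g1) (h6 : g1 ≤ 1) (hN : N = g1 * s2 - g2 * s1)
    (hT : T = s1 + g2 + N)
    (hd : s2 - s1 < N) (hd0 : 0 < s2 - s1) (he0 : 0 < g1 - g2)
    (a : 6 * (s2 * (1 + g2)) < 5 * T) (a' : 6 * ((1 + s2) * g2) < 5 * T)
    (b : (g1 - g2) * (1 + s2) ≤ g2 * (s2 - s1)) : False := by
  obtain ⟨d, hdd⟩ : ∃ d, d = s2 - s1 := ⟨_, rfl⟩
  obtain ⟨e, hee⟩ : ∃ e, e = g1 - g2 := ⟨_, rfl⟩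
  rw [← hdd] at hd hd0 b
  rw [← hee] at he0 b
  have k1 : g1 * d = N - e * s1 := by rw [hN, hdd, hee]; ring
  have k2 : g2 * d = N - e * s2 := by rw [hN, hdd, hee]; ring
  have e1 : N / d - e / d * s1 = g1 := by
    field_simp
    linarith
  have e2 : g2 = N / d - e / d * s2 := by
    field_simp
    linarith
  have hK : 1 ≤ N / d := (one_le_div hd0).mpr hd.le
  have hk : 0 < e / d := div_pos he0 hd0
  obtain ⟨m, hm⟩ : ∃ m, m = max (g2 * (1 + s2)) (s2 * (1 + g2)) := ⟨_, rfl⟩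
  have hm1 : g2 * (1 + s2) ≤ m := hm ▸ le_max_left _ _
  have hm2 : s2 * (1 + g2) ≤ m := hm ▸ le_max_right _ _
  have hmT : 6 * m < 5 * T := by
    rw [hm]
    rcases le_total (g2 * (1 + s2)) (s2 * (1 + g2)) with h | h
    · rw [max_eq_right h]
      linarith
    · rw [max_eq_left h]
      linarith
  have hc := coreIII (K := N / d) (k := e / d) (s := s1) (x := s2) (y := g2) (m := m) hk hK e2 h1 h2
    h3 h4 (h5.trans h6) (by rw [e1]; exact h6)
    (by
      rw [div_mul_eq_mul_div, div_le_iff₀ hd0]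
      exact b) hm1 hm2
  have e5 : N / d * (s2 - s1) = N := by
    rw [← hdd]
    field_simp
  rw [e5] at hc
  linarith

private theorem case0 {x y T : ℝ} (hT : 4 / 3 ≤ T) (hTS : T ≤ x + y) (hx : x ≤ 1) (hy : y ≤ 1)
    (h1 : 6 * ((1 + x) * y) < 5 * T) (h2 : 6 * (x * (1 + y)) < 5 * T) : False := by
  have h := core0 (x := x) (y := y) (T := T) (m := max (y * (1 + x)) (x * (1 + y))) hT hTS hx hy
    (le_max_left _ _) (le_max_right _ _)
  rcases le_total (y * (1 + x)) (x * (1 + y)) with h' | h'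
  · rw [max_eq_right h'] at h
    linarith
  · rw [max_eq_left h'] at h
    linarith

/-- the extremal problem for `(0,1), (s1,g1), (s2,g2), (1,0)` -/
theorem shape {s1 g1 s2 g2 T : ℝ} (h1 : 0 ≤ s1) (h2 : s1 ≤ s2) (h3 : s2 ≤ 1) (h4 : 0 ≤ g2)
    (h5 : g2 ≤ g1) (h6 : g1 ≤ 1) (hT : T = s1 + g2 + g1 * s2 - g2 * s1) (hT0 : 4 / 3 ≤ T)
    (H : ∀ t : ℝ, 0 ≤ t → t ≤ 1 →
      6 * ((s1 + t * (s2 - s1)) * (1 + (g1 + t * (g2 - g1)))) < 5 * T ∧
      6 * ((1 + (s1 + t * (s2 - s1))) * (g1 + t * (g2 - g1))) < 5 * T) : False := by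
  have H0 := H 0 le_rfl zero_le_one
  have H1 := H 1 zero_le_one le_rfl
  have q1 : 6 * (s1 * (1 + g1)) < 5 * T := by
    have := H0.1
    simp only [zero_mul, add_zero] at this
    exact this
  have q2 : 6 * ((1 + s1) * g1) < 5 * T := by
    have := H0.2
    simp only [zero_mul, add_zero] at this
    exact this
  have q3 : 6 * (s2 * (1 + g2)) < 5 * T := by
    have := H1.1
    have e1 : s1 + 1 * (s2 - s1) = s2 := by ring
    have e2 : g1 + 1 * (g2 - g1) = g2 := by ring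
    rw [e1, e2] at this
    exact this
  have q4 : 6 * ((1 + s2) * g2) < 5 * T := by
    have := H1.2
    have e1 : s1 + 1 * (s2 - s1) = s2 := by ring
    have e2 : g1 + 1 * (g2 - g1) = g2 := by ring
    rw [e1, e2] at this
    exact this
  obtain ⟨N, hN⟩ : ∃ N, N = g1 * s2 - g2 * s1 := ⟨_, rfl⟩
  have hTN : T = s1 + g2 + N := by rw [hT, hN]; ring
  rcases le_or_gt N (s2 - s1) with c1 | c1
  · exact case0 hT0 (show T ≤ s2 + g2 by linarith) h3 (h5.trans h6) q4 q3
  rcases le_or_gt N (g1 - g2) with c2 | c2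
  · exact case0 hT0 (show T ≤ s1 + g1 by linarith) (h2.trans h3) h6 q2 q1
  have hd0 : 0 < s2 - s1 := by
    rcases lt_or_eq_of_le (sub_nonneg.mpr h2) with h | h
    · exact h
    · exfalso
      have e : s2 = s1 := by linarith
      rw [e] at hN
      have : N = (g1 - g2) * s1 := by rw [hN]; ring
      have h7 := mul_le_mul_of_nonneg_left (h2.trans h3) (sub_nonneg.mpr h5)
      linarith
  have he0 : 0 < g1 - g2 := by
    rcases lt_or_eq_of_le (sub_nonneg.mpr h5) with h | h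
    · exact h
    · exfalso
      have e : g1 = g2 := by linarith
      have : N = g1 * (s2 - s1) := by rw [hN, e]; ring
      have h7 := mul_le_mul_of_nonneg_right h6 (sub_nonneg.mpr h2)
      linarith
  have k1 : N = (s2 - s1) * g1 + (g1 - g2) * s1 := by rw [hN]; ring
  have k2 : N = (s2 - s1) * g2 + (g1 - g2) * s2 := by rw [hN]; ring
  have hg1 : 0 ≤ g1 := h4.trans h5
  have hs2 : 0 ≤ s2 := h1.trans h2
  have hed : 0 < 4 * (g1 - g2) * (s2 - s1) := by positivity
  -- the position of the maximum of `s (1 + g)`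
  rcases le_or_gt (2 * (g1 - g2) * s1) ((s2 - s1) + N) with c3 | c3
  swap
  · -- `(iii')`
    exact caseIII (s1 := g2) (g1 := s2) (s2 := g1) (g2 := s1) (T := T) (N := N) h4 h5 h6 h1 h2 h3
      (by rw [hN]; ring) (by rw [hTN]; ring) c2 he0 hd0 (by linarith) (by linarith) (by linarith)
  rcases le_or_gt ((s2 - s1) + N) (2 * (g1 - g2) * s2) with c4 | c4
  · -- `(i')`
    refine caseB h1 h2 h3 hg1 h6 hN hTN c1 c2 hd0 he0 q2 ?_
    have ht0 : 0 ≤ (((s2 - s1) + N) / (2 * (g1 - g2)) - s1) / (s2 - s1) := by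
      refine div_nonneg (sub_nonneg.mpr ?_) hd0.le
      rw [le_div_iff₀ (by positivity)]
      linarith
    have ht1 : (((s2 - s1) + N) / (2 * (g1 - g2)) - s1) / (s2 - s1) ≤ 1 := by
      rw [div_le_one hd0]
      have : ((s2 - s1) + N) / (2 * (g1 - g2)) ≤ s2 := by
        rw [div_le_iff₀ (by positivity)]
        linarith
      linarith
    have h := (H _ ht0 ht1).1
    have e1 : s1 + (((s2 - s1) + N) / (2 * (g1 - g2)) - s1) / (s2 - s1) * (s2 - s1) =
        ((s2 - s1) + N) / (2 * (g1 - g2)) := by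
      rw [div_mul_cancel₀ _ hd0.ne']
      ring
    have e2 : 1 + (g1 + (((s2 - s1) + N) / (2 * (g1 - g2)) - s1) / (s2 - s1) * (g2 - g1)) =
        ((s2 - s1) + N) / (2 * (s2 - s1)) := by
      have hne1 : (g1 - g2) ≠ 0 := he0.ne'
      have hne2 : (s2 - s1) ≠ 0 := hd0.ne'
      field_simp
      rw [k1]
      ring
    rw [e1, e2] at h
    have e3 : ((s2 - s1) + N) / (2 * (g1 - g2)) * (((s2 - s1) + N) / (2 * (s2 - s1))) =
        ((s2 - s1) + N) ^ 2 / (4 * (g1 - g2) * (s2 - s1)) := by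
      have hne1 : (g1 - g2) ≠ 0 := he0.ne'
      have hne2 : (s2 - s1) ≠ 0 := hd0.ne'
      field_simp
      ring
    rw [e3] at h
    have e4 : 6 * (((s2 - s1) + N) ^ 2 / (4 * (g1 - g2) * (s2 - s1))) =
        6 * ((s2 - s1) + N) ^ 2 / (4 * (g1 - g2) * (s2 - s1)) := by ring
    rw [e4, div_lt_iff₀ hed] at h
    exact h
  rcases le_or_gt (2 * (g1 - g2) * s1) (N - (g1 - g2)) with c5 | c5
  · rcases le_or_gt (N - (g1 - g2)) (2 * (g1 - g2) * s2) with c6 | c6
    · -- `(i)`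
      refine caseB (s1 := g2) (g1 := s2) (s2 := g1) (g2 := s1) (T := T) (N := N) h4 h5 h6 hs2 h3
        (by rw [hN]; ring) (by rw [hTN]; ring) c2 c1 he0 hd0 (by linarith) ?_
      have ht0 : 0 ≤ ((N - (g1 - g2)) / (2 * (g1 - g2)) - s1) / (s2 - s1) := by
        refine div_nonneg (sub_nonneg.mpr ?_) hd0.le
        rw [le_div_iff₀ (by positivity)]
        linarith
      have ht1 : ((N - (g1 - g2)) / (2 * (g1 - g2)) - s1) / (s2 - s1) ≤ 1 := by
        rw [div_le_one hd0]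
        have : (N - (g1 - g2)) / (2 * (g1 - g2)) ≤ s2 := by
          rw [div_le_iff₀ (by positivity)]
          linarith
        linarith
      have h := (H _ ht0 ht1).2
      have e1 : 1 + (s1 + ((N - (g1 - g2)) / (2 * (g1 - g2)) - s1) / (s2 - s1) * (s2 - s1)) =
          (N + (g1 - g2)) / (2 * (g1 - g2)) := by
        rw [div_mul_cancel₀ _ hd0.ne']
        have hne1 : (g1 - g2) ≠ 0 := he0.ne'
        field_simp
        ring
      have e2 : g1 + ((N - (g1 - g2)) / (2 * (g1 - g2)) - s1) / (s2 - s1) * (g2 - g1) =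
          (N + (g1 - g2)) / (2 * (s2 - s1)) := by
        have hne1 : (g1 - g2) ≠ 0 := he0.ne'
        have hne2 : (s2 - s1) ≠ 0 := hd0.ne'
        field_simp
        rw [k1]
        ring
      rw [e1, e2] at h
      have e3 : (N + (g1 - g2)) / (2 * (g1 - g2)) * ((N + (g1 - g2)) / (2 * (s2 - s1))) =
          (N + (g1 - g2)) ^ 2 / (4 * (g1 - g2) * (s2 - s1)) := by
        have hne1 : (g1 - g2) ≠ 0 := he0.ne'
        have hne2 : (s2 - s1) ≠ 0 := hd0.ne'
        field_simp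
        ring
      rw [e3] at h
      have e4 : 6 * ((N + (g1 - g2)) ^ 2 / (4 * (g1 - g2) * (s2 - s1))) =
          6 * (N + (g1 - g2)) ^ 2 / (4 * (g1 - g2) * (s2 - s1)) := by ring
      rw [e4, div_lt_iff₀ hed] at h
      have e5 : 6 * ((g1 - g2) + N) ^ 2 = 6 * (N + (g1 - g2)) ^ 2 := by ring
      have e6 : 5 * T * (4 * (s2 - s1) * (g1 - g2)) = 5 * T * (4 * (g1 - g2) * (s2 - s1)) := by
        ring
      rw [e5, e6]
      exact h
    · -- `(iii)`
      exact caseIII h1 h2 h3 h4 h5 h6 hN hTN c1 hd0 he0 q3 q4 (by linarith)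
  · -- `(ii)`, `(ii')`
    refine coreII (p := g1) (q := s2) (a := s1) (b := g2) h1 h4 h2 h5 h6 h3 ?_ ?_ ?_ ?_ ?_
    · rw [hT] at hT0
      linarith
    · linarith
    · linarith
    · rw [hT] at q2
      linarith
    · rw [hT] at q3
      linarith

end Pool.Agent.MP49888f.HX
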